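import Pool.Agent.Run7.h988.Ext

/-!
# Finite injective dimension from the vanishing of `Ext^i(k, R)`, `i ≥ 2`
-/

set_option autoImplicit false

open CategoryTheory Abelian

universe u

namespace Run7.h988

variable {R : Type u} [CommRing R] {N : Type u} [AddCommGroup N] [Module R N]

/-- Nakayama for `Ext`: if `x` in the maximal ideal is injective on `A` and the quotient `A / x A`
has `Ext^(i+1) = 0` then `Ext^i(A, N) = 0`. -/
theorem ev_of_quot [IsLocalRing R] [IsNoetherianRing R] {A C : Type u} [AddCommGroup A]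
    [Module R A] [Module.Finite R A] [AddCommGroup C] [Module R C] [Module.Finite R N] (x : R)
    (hx : x ∈ IsLocalRing.maximalIdeal R) (g : A →ₗ[R] C)
    (h : Function.Exact (x • LinearMap.id : A →ₗ[R] A) g)
    (hf : Function.Injective (x • LinearMap.id : A →ₗ[R] A)) (hg : Function.Surjective g)
    (i : ℕ) (hC : EV R C N (i + 1)) : EV R A N i := by
  have hS := sc_shortExact (x • LinearMap.id : A →ₗ[R] A) g h hf hg
  have h1 : ∀ z : Ext (ModuleCat.of R A) (ModuleCat.of R N) i,
      ∃ y : Ext (ModuleCat.of R A) (ModuleCat.of R N) i, x • y = z := by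
    intro z
    have h0 : ∀ y : Ext (ModuleCat.of R A) (ModuleCat.of R N) i,
        (Ext.mk₀ (x • 𝟙 (ModuleCat.of R A))).comp y (zero_add i) = x • y := by
      intro y
      simp [Ext.mk₀_smul]
    obtain ⟨y, hy⟩ : ∃ y : Ext (ModuleCat.of R A) (ModuleCat.of R N) i,
        (Ext.mk₀ (x • 𝟙 (ModuleCat.of R A))).comp y (zero_add i) = z :=
      Ext.contravariant_sequence_exact₁ hS (ModuleCat.of R N) z
        (add_comm 1 i) (@Subsingleton.elim _ hC _ _)
    exact ⟨y, (h0 y).symm.trans hy⟩
  have h2 : (⊤ : Submodule R (Ext (ModuleCat.of R A) (ModuleCat.of R N) i)) = ⊥ := by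
    apply Submodule.eq_bot_of_le_smul_of_le_jacobson_bot (IsLocalRing.maximalIdeal R) ⊤
      (Module.Finite.fg_top)
    · intro z _
      obtain ⟨y, rfl⟩ := h1 z
      exact Submodule.smul_mem_smul hx Submodule.mem_top
    · exact le_of_eq (IsLocalRing.jacobson_eq_maximalIdeal ⊥ bot_ne_top).symm
  refine subsingleton_of_forall_eq 0 fun z => ?_
  have h3 : z ∈ (⊤ : Submodule R (Ext (ModuleCat.of R A) (ModuleCat.of R N) i)) :=
    Submodule.mem_top
  rw [h2] at h3
  exact h3

/-- the vanishing of `Ext^i(R/p, N)` for all primes gives the vanishing for all finite modules -/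
theorem ev_of_primes [IsNoetherianRing R] (J : Ideal R) (i : ℕ) (hi : 1 ≤ i)
    (hp : ∀ p : PrimeSpectrum R, J ≤ p.asIdeal → EV R (R ⧸ p.asIdeal) N i) (M : Type u)
    [AddCommGroup M] [Module R M] [hM : Module.Finite R M] (hJ : ∀ r ∈ J, ∀ m : M, r • m = 0) :
    EV R M N i := by
  revert hJ
  induction hM using IsNoetherianRing.induction_on_isQuotientEquivQuotientPrime R with
  | subsingleton M =>
    intro _
    exact ev_proj i hi
  | quotient M q e =>
    intro hJ
    refine (ev_congr_left e i).2 (hp q ?_)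
    intro r hr
    have h1 := hJ r hr (e.symm (Submodule.Quotient.mk 1))
    have h2 : e (r • e.symm (Submodule.Quotient.mk 1)) = 0 := by rw [h1, map_zero]
    rw [map_smul, LinearEquiv.apply_symm_apply, ← Submodule.Quotient.mk_smul,
      Submodule.Quotient.mk_eq_zero, smul_eq_mul, mul_one] at h2
    exact h2
  | exact N₁ N₂ N₃ f g hf hg hfg h1 h3 =>
    intro hJ
    refine ev_second f g hfg hf hg i (h1 fun r hr m => ?_) (h3 fun r hr m => ?_)
    · apply hf
      rw [map_smul, map_zero]
      exact hJ r hr _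
    · obtain ⟨m, rfl⟩ := hg m
      rw [← map_smul, hJ r hr, map_zero]

/-- the step of Bass -/
theorem ev_prime [IsLocalRing R] [IsNoetherianRing R] [Module.Finite R N]
    (hk : ∀ i : ℕ, 2 ≤ i → EV R (IsLocalRing.ResidueField R) N i) (p : Ideal R)
    (hp : p.IsPrime) : ∀ i : ℕ, 2 ≤ i → EV R (R ⧸ p) N i := by
  induction p using WellFoundedGT.induction with
  | _ p ih =>
  by_cases hpm : p = IsLocalRing.maximalIdeal R
  · subst hpm
    exact hk
  · intro i hi
    have hle : p ≤ IsLocalRing.maximalIdeal R := IsLocalRing.le_maximalIdeal hp.ne_top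
    obtain ⟨x, hxm, hxp⟩ := SetLike.exists_of_lt (lt_of_le_of_ne hle hpm)
    let J : Ideal R := p ⊔ Ideal.span {x}
    have hpJ : p ≤ J := le_sup_left
    let g : (R ⧸ p) →ₗ[R] (R ⧸ J) := Submodule.mapQ p J LinearMap.id hpJ
    have hg : Function.Surjective g := by
      intro z
      obtain ⟨z, rfl⟩ := Submodule.mkQ_surjective _ z
      exact ⟨Submodule.mkQ p z, rfl⟩
    have hinj : Function.Injective (x • LinearMap.id : (R ⧸ p) →ₗ[R] (R ⧸ p)) := by
      rw [← LinearMap.ker_eq_bot, LinearMap.ker_eq_bot']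
      intro z hz
      obtain ⟨z, rfl⟩ := Submodule.mkQ_surjective _ z
      have h1 : Submodule.mkQ p (x * z) = 0 := hz
      rw [Submodule.mkQ_apply, Submodule.Quotient.mk_eq_zero] at h1
      rw [Submodule.mkQ_apply, Submodule.Quotient.mk_eq_zero]
      exact (hp.mem_or_mem h1).resolve_left hxp
    have hex : Function.Exact (x • LinearMap.id : (R ⧸ p) →ₗ[R] (R ⧸ p)) g := by
      intro z
      obtain ⟨z, rfl⟩ := Submodule.mkQ_surjective _ z
      constructor
      · intro h
        have h1 : Submodule.mkQ J z = 0 := h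
        rw [Submodule.mkQ_apply, Submodule.Quotient.mk_eq_zero, Submodule.mem_sup] at h1
        obtain ⟨a, ha, b, hb, hab⟩ := h1
        obtain ⟨c, rfl⟩ := Ideal.mem_span_singleton.1 hb
        refine ⟨Submodule.mkQ p c, ?_⟩
        show Submodule.mkQ p (x * c) = Submodule.mkQ p z
        rw [← sub_eq_zero, ← map_sub, Submodule.mkQ_apply, Submodule.Quotient.mk_eq_zero, ← hab]
        simpa using ha
      · rintro ⟨c, hc⟩
        obtain ⟨c, rfl⟩ := Submodule.mkQ_surjective _ c
        rw [← hc]
        show Submodule.mkQ J (x * c) = 0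
        rw [Submodule.mkQ_apply, Submodule.Quotient.mk_eq_zero]
        exact le_sup_right (α := Ideal R)
          (Ideal.mul_mem_right _ _ (Ideal.mem_span_singleton_self x))
    refine ev_of_quot x hxm g hex hinj hg i ?_
    refine ev_of_primes J (i + 1) (by omega) ?_ (R ⧸ J) ?_
    · intro q hq
      refine ih q.asIdeal ?_ q.isPrime (i + 1) (by omega)
      refine lt_of_le_of_ne (hpJ.trans hq) ?_
      rintro rfl
      exact hxp (hq (le_sup_right (α := Ideal R) (Ideal.mem_span_singleton_self x)))
    · intro r hr m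
      obtain ⟨m, rfl⟩ := Submodule.mkQ_surjective _ m
      rw [← map_smul, Submodule.mkQ_apply, Submodule.Quotient.mk_eq_zero, smul_eq_mul]
      exact Ideal.mul_mem_right _ _ hr

/-- **Bass**: if `Ext^i(k, N) = 0` for `i ≥ 2` then the injective dimension of the finite module
`N` is at most one. -/
theorem injDim_le_one [IsLocalRing R] [IsNoetherianRing R] [Module.Finite R N]
    (hk : ∀ i : ℕ, 2 ≤ i → EV R (IsLocalRing.ResidueField R) N i) :
    HasInjectiveDimensionLE (ModuleCat.of R N) 1 := by
  have h2 : ∀ I : Ideal R, EV R (R ⧸ I) N 2 := fun I =>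
    ev_of_primes ⊥ 2 (by norm_num) (fun q _ => ev_prime hk q.asIdeal q.isPrime 2 le_rfl) _
      (fun r hr m => by
        rw [Submodule.mem_bot] at hr
        rw [hr, zero_smul])
  have ei : EnoughInjectives (ModuleCat.{u} R) := inferInstance
  rcases ei.1 (ModuleCat.of R N) with ⟨I, inj, f, monof⟩
  let S := ShortComplex.mk f (Limits.cokernel.π f) (Limits.cokernel.condition f)
  have hS : S.ShortExact := { exact := ShortComplex.exact_cokernel f }
  have hC : Injective S.X₃ := by
    rw [← Module.injective_iff_injective_object]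
    rw [← Module.Baer.iff_injective]
    intro J φ
    have hJ : Subsingleton (Ext (ModuleCat.of R (R ⧸ J)) S.X₃ 1) := by
      refine subsingleton_of_forall_eq 0 fun z => ?_
      obtain ⟨y, hy⟩ := Ext.covariant_sequence_exact₃ (ModuleCat.of R (R ⧸ J)) hS z
        (rfl : 1 + 1 = 2) (@Subsingleton.elim _ (h2 J) _ _)
      have hy0 : y = 0 := Ext.eq_zero_of_injective (I := I) y
      rw [← hy, hy0, Ext.zero_comp]
    obtain ⟨ψ, hψ⟩ := extend_of_ev (N := S.X₃) J.subtype J.mkQ
      (LinearMap.exact_subtype_mkQ _) Subtype.val_injective (Submodule.mkQ_surjective _) hJ φ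
    exact ⟨ψ, fun z hz => LinearMap.congr_fun hψ ⟨z, hz⟩⟩
  have h3 : HasInjectiveDimensionLT S.X₃ 1 := inferInstance
  exact (hS.hasInjectiveDimensionLT_X₃_iff 0 inj).1 h3

end Run7.h988
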