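import Pool.Agent.Run7.h988.Rank
import Pool.Agent.Run7.h988.Bass

/-!
# Derivation modules of finite G-dimension in dimension one
-/

set_option autoImplicit false
set_option linter.unusedSectionVars false

open IsLocalRing CategoryTheory

universe u

namespace Run7.h988

section general

variable {R : Type u} [CommRing R] {M : Type u} [AddCommGroup M] [Module R M]

/-- division of a functional by a regular element -/
theorem exists_div {x : R} (hreg : ∀ a : R, x * a = 0 → a = 0) (ψ : M →ₗ[R] R)
    (h : ∀ m, x ∣ ψ m) : ∃ φ : M →ₗ[R] R, ∀ m, x * φ m = ψ m := by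
  have h1 : ∀ m, ψ m ∈ LinearMap.range (mx R x) := by
    intro m
    obtain ⟨c, hc⟩ := h m
    exact ⟨c, by rw [mx_apply, hc, mul_comm]⟩
  let e := LinearEquiv.ofInjective (mx R x) (mx_inj hreg)
  refine ⟨(e.symm : _ →ₗ[R] R) ∘ₗ (ψ.codRestrict (LinearMap.range (mx R x)) h1), fun m => ?_⟩
  have h4 : ((e (((e.symm : _ →ₗ[R] R) ∘ₗ (ψ.codRestrict (LinearMap.range (mx R x)) h1)) m) :
      LinearMap.range (mx R x)) : R) = ψ m := by
    show ((e (e.symm _) : LinearMap.range (mx R x)) : R) = ψ m
    rw [LinearEquiv.apply_symm_apply]
    rfl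
  rw [mul_comm]
  exact h4

/-- if the dual of a finite module over a ring of depth one is totally reflexive then the
biduality map is surjective -/
theorem eval_surjective [IsLocalRing R] [IsNoetherianRing R] {x s : R} (hp : Par R x s)
    [Module.Finite R M] (h : TotRefl R (Module.Dual R M)) :
    Function.Surjective (Module.Dual.eval R M) := by
  rw [← LinearMap.range_eq_top]
  refine key hp (h.extDual 1 le_rfl) _ ?_ ?_
  · intro θ hθ
    obtain ⟨φ, rfl⟩ := h.refl.2 θ
    have h1 : φ = 0 := by
      apply LinearMap.ext
      intro m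
      exact hθ (Module.Dual.eval R M m) ⟨m, rfl⟩
    rw [h1, map_zero]
  · intro l
    refine ⟨Module.Dual.eval R (Module.Dual R M) (l ∘ₗ (Module.Dual.eval R M).rangeRestrict), ?_⟩
    rintro ⟨_, m, rfl⟩
    rfl

/-- a torsionless finite module with totally reflexive dual is totally reflexive -/
theorem totRefl_of_dual [IsLocalRing R] [IsNoetherianRing R] {x s : R} (hp : Par R x s)
    [Module.Finite R M] (hM : Function.Injective (Module.Dual.eval R M))
    (h : TotRefl R (Module.Dual R M)) : TotRefl R M := by
  have hb : Function.Bijective (Module.Dual.eval R M) := ⟨hM, eval_surjective hp h⟩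
  let e : M ≃ₗ[R] Module.Dual R (Module.Dual R M) :=
    LinearEquiv.ofBijective (Module.Dual.eval R M) hb
  exact ⟨inferInstance, hb, fun i hi => (ev_congr_left e i).2 (h.extDual i hi), h.ext⟩

end general

section der

variable {R : Type u} [CommRing R] {k : Type*} [Field k] [Algebra k R]

/-- the derivation `φ ∘ E` of a functional `φ` on an ideal containing the values of `E` -/
def compDer (E : Derivation k R R) (I : Ideal R) (hI : ∀ f, E f ∈ I) (φ : I →ₗ[R] R) :
    Derivation k R R where
  toFun f := φ ⟨E f, hI f⟩
  map_add' f g := by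
    rw [← map_add]
    congr 1
    exact Subtype.ext (map_add E f g)
  map_smul' c f := by
    have h1 : (⟨E (c • f), hI (c • f)⟩ : I) = algebraMap k R c • ⟨E f, hI f⟩ := by
      apply Subtype.ext
      show E (c • f) = algebraMap k R c * E f
      rw [Derivation.map_smul, Algebra.smul_def]
    rw [h1, map_smul, smul_eq_mul, RingHom.id_apply, Algebra.smul_def]
  map_one_eq_zero' := by
    show φ ⟨E 1, hI 1⟩ = 0
    have h1 : (⟨E 1, hI 1⟩ : I) = 0 := Subtype.ext (Derivation.map_one_eq_zero E)
    rw [h1, map_zero]
  leibniz' f g := by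
    show φ ⟨E (f * g), hI (f * g)⟩ = f • φ ⟨E g, hI g⟩ + g • φ ⟨E f, hI f⟩
    rw [← map_smul, ← map_smul, ← map_add]
    congr 1
    exact Subtype.ext (Derivation.leibniz E f g)

@[simp] theorem compDer_apply (E : Derivation k R R) (I : Ideal R) (hI : ∀ f, E f ∈ I)
    (φ : I →ₗ[R] R) (f : R) : compDer E I hI φ f = φ ⟨E f, hI f⟩ := rfl

/-- `Hom(I, R) → Der(R)` -/
def dualToDer (E : Derivation k R R) (I : Ideal R) (hI : ∀ f, E f ∈ I) :
    Module.Dual R I →ₗ[R] Derivation k R R where
  toFun φ := compDer E I hI φ
  map_add' φ ψ := by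
    ext f
    rfl
  map_smul' r φ := by
    ext f
    rfl

theorem dualToDer_bijective (E : Derivation k R R) (I : Ideal R)
    (hE : Ideal.span (Set.range E) = I) (hI : ∀ f, E f ∈ I)
    (hrk : ∀ (D : Derivation k R R) (f g : R), D f * E g = D g * E f)
    {x : R} (hx : x ∈ nonZeroDivisors R) (hxI : x ∈ I) :
    Function.Bijective (dualToDer E I hI) := by
  have hreg : ∀ a : R, x * a = 0 → a = 0 := mem_nonZeroDivisors_iff_left.1 hx
  constructor
  · rw [← LinearMap.ker_eq_bot, LinearMap.ker_eq_bot']
    intro φ hφ
    have h1 : ∀ y (hy : y ∈ I), φ ⟨y, hy⟩ = 0 := by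
      intro y hy
      have hy' : y ∈ Submodule.span R (Set.range E) := by
        have : y ∈ Ideal.span (Set.range E) := by rw [hE]; exact hy
        exact this
      induction hy' using Submodule.span_induction with
      | mem y hy1 =>
        obtain ⟨f, rfl⟩ := hy1
        exact DFunLike.congr_fun hφ f
      | zero => exact map_zero φ
      | add y z hy1 hz1 ih1 ih2 =>
        have hyI : y ∈ I := hE ▸ hy1
        have hzI : z ∈ I := hE ▸ hz1
        have : (⟨y + z, hy⟩ : I) = ⟨y, hyI⟩ + ⟨z, hzI⟩ := rfl
        rw [this, map_add, ih1 hyI, ih2 hzI, add_zero]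
      | smul r y hy1 ih =>
        have hyI : y ∈ I := hE ▸ hy1
        have : (⟨r • y, hy⟩ : I) = r • ⟨y, hyI⟩ := rfl
        rw [this, map_smul, ih hyI, smul_zero]
    apply LinearMap.ext
    intro y
    exact h1 y y.2
  · intro D
    have h1 : ∀ y ∈ I, ∃ δ : R, ∀ f, E f * δ = y * D f := by
      intro y hy
      have hy' : y ∈ Submodule.span R (Set.range E) := by
        have : y ∈ Ideal.span (Set.range E) := by rw [hE]; exact hy
        exact this
      clear hy
      induction hy' using Submodule.span_induction with
      | mem y hy1 =>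
        obtain ⟨g, rfl⟩ := hy1
        exact ⟨D g, fun f => by rw [mul_comm (E f), hrk D g f, mul_comm]⟩
      | zero => exact ⟨0, fun f => by ring⟩
      | add y z _ _ ih1 ih2 =>
        obtain ⟨a, ha⟩ := ih1
        obtain ⟨b, hb⟩ := ih2
        exact ⟨a + b, fun f => by rw [mul_add, ha, hb]; ring⟩
      | smul r y _ ih =>
        obtain ⟨a, ha⟩ := ih
        refine ⟨r * a, fun f => ?_⟩
        rw [smul_eq_mul, mul_left_comm, ha]
        ring
    obtain ⟨δ, hδ⟩ := h1 x hxI
    have h2 : ∀ y ∈ I, x ∣ y * δ := by
      intro y hy
      have hy' : y ∈ Submodule.span R (Set.range E) := by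
        have : y ∈ Ideal.span (Set.range E) := by rw [hE]; exact hy
        exact this
      clear hy
      induction hy' using Submodule.span_induction with
      | mem y hy1 =>
        obtain ⟨g, rfl⟩ := hy1
        exact ⟨D g, hδ g⟩
      | zero => simp
      | add y z _ _ ih1 ih2 => rw [add_mul]; exact dvd_add ih1 ih2
      | smul r y _ ih => rw [smul_eq_mul, mul_assoc]; exact Dvd.dvd.mul_left ih _
    obtain ⟨φ, hφ⟩ := exists_div hreg ((LinearMap.toSpanSingleton R R δ) ∘ₗ (I.subtype))
      (fun y => h2 y y.2)
    refine ⟨φ, ?_⟩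
    ext f
    show φ ⟨E f, hI f⟩ = D f
    have h3 : x * (φ ⟨E f, hI f⟩ - D f) = 0 := by
      rw [mul_sub, hφ]
      show E f * δ - x * D f = 0
      rw [hδ f, sub_self]
    exact sub_eq_zero.1 (hreg _ h3)

/-- evaluation of derivations at `f` -/
def evd (f : R) : Module.Dual R (Derivation k R R) where
  toFun D := D f
  map_add' _ _ := rfl
  map_smul' _ _ := rfl

@[simp] theorem evd_apply (f : R) (D : Derivation k R R) : evd f D = D f := rfl

/-- if `Der(R)` is totally reflexive (depth one), its dual is spanned by the evaluations, that is,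
the universal derivation induces a surjection from the differentials to their bidual -/
theorem span_evd [IsLocalRing R] [IsNoetherianRing R] {x s : R} (hp : Par R x s)
    (h : TotRefl R (Derivation k R R)) :
    Submodule.span R (Set.range (evd : R → Module.Dual R (Derivation k R R))) = ⊤ := by
  have := h.fin
  refine key hp (h.extDual 1 le_rfl) _ ?_ ?_
  · intro θ hθ
    obtain ⟨D, rfl⟩ := h.refl.2 θ
    have h1 : D = 0 := by
      ext f
      exact hθ (evd f) (Submodule.subset_span ⟨f, rfl⟩)
    rw [h1, map_zero]
  · intro l
    have hmem : ∀ f : R, (evd f : Module.Dual R (Derivation k R R)) ∈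
        Submodule.span R (Set.range (evd : R → Module.Dual R (Derivation k R R))) := fun f =>
      Submodule.subset_span ⟨f, rfl⟩
    let D : Derivation k R R :=
      { toFun := fun f => l ⟨evd f, hmem f⟩
        map_add' := fun f g => by
          rw [← map_add]
          congr 1
          apply Subtype.ext
          apply LinearMap.ext
          intro D
          exact map_add D f g
        map_smul' := fun c f => by
          have h1 : (⟨evd (c • f), hmem (c • f)⟩ :
              Submodule.span R (Set.range (evd : R → Module.Dual R (Derivation k R R)))) =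
              algebraMap k R c • ⟨evd f, hmem f⟩ := by
            apply Subtype.ext
            apply LinearMap.ext
            intro D
            show D (c • f) = algebraMap k R c * D f
            rw [Derivation.map_smul, Algebra.smul_def]
          rw [h1, map_smul, smul_eq_mul, RingHom.id_apply, Algebra.smul_def]
        map_one_eq_zero' := by
          have h1 : (⟨evd 1, hmem 1⟩ :
              Submodule.span R (Set.range (evd : R → Module.Dual R (Derivation k R R)))) = 0 := by
            apply Subtype.ext
            apply LinearMap.ext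
            intro D
            exact Derivation.map_one_eq_zero D
          show l ⟨evd 1, hmem 1⟩ = 0
          rw [h1, map_zero]
        leibniz' := fun f g => by
          show l ⟨evd (f * g), hmem (f * g)⟩ = f • l ⟨evd g, hmem g⟩ + g • l ⟨evd f, hmem f⟩
          rw [← map_smul, ← map_smul, ← map_add]
          congr 1
          apply Subtype.ext
          apply LinearMap.ext
          intro D
          exact Derivation.leibniz D f g }
    refine ⟨Module.Dual.eval R _ D, ?_⟩
    rintro ⟨y, hy⟩
    show y D = l ⟨y, hy⟩
    induction hy using Submodule.span_induction with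
    | mem y hy1 =>
      obtain ⟨f, rfl⟩ := hy1
      rfl
    | zero => exact (map_zero l).symm
    | add y z hy1 hz1 ih1 ih2 =>
      show y D + z D = l (⟨y, hy1⟩ + ⟨z, hz1⟩)
      rw [map_add, ih1, ih2]
    | smul r y hy1 ih =>
      show r • y D = l (r • ⟨y, hy1⟩)
      rw [map_smul, ih]

end der

/-- the maximal ideal is totally reflexive only over rings of injective dimension at most one -/
theorem injDim_of_max {R : Type u} [CommRing R] [IsLocalRing R] [IsNoetherianRing R]
    (h : ∀ i : ℕ, 1 ≤ i → EV R (maximalIdeal R) R i) :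
    HasInjectiveDimensionLE (ModuleCat.of R R) 1 := by
  apply injDim_le_one
  intro i hi
  obtain ⟨i, rfl⟩ : ∃ j, i = j + 1 := ⟨i - 1, by omega⟩
  exact ev_third (maximalIdeal R).subtype (maximalIdeal R).mkQ (LinearMap.exact_subtype_mkQ _)
    Subtype.val_injective (Submodule.mkQ_surjective _) i (h i (by omega))
    (ev_proj (i + 1) (by omega))

/-- Theorem 1 -/
theorem gorenstein_of_euler {R : Type u} [CommRing R] [IsLocalRing R] [IsNoetherianRing R]
    [IsReduced R] {k : Type*} [Field k] [CharZero k] [Algebra k R]
    [Module.Finite k (ResidueField R)] (hdim : ringKrullDim R = 1)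
    (hfin : Module.Finite R (integralClosure R (FractionRing R)))
    (E : Derivation k R R) (hE : Ideal.span (Set.range E) = maximalIdeal R) (n : ℕ)
    (hG : GdimLE R n (Derivation k R R)) : HasInjectiveDimensionLE (ModuleCat.of R R) 1 := by
  obtain ⟨x, hxm, hx⟩ := exists_regular hdim
  obtain ⟨s, hp⟩ := exists_par hdim hxm hx
  have hI : ∀ f, E f ∈ maximalIdeal R := by
    intro f
    rw [← hE]
    exact Ideal.subset_span ⟨f, rfl⟩
  let e : Module.Dual R (maximalIdeal R) ≃ₗ[R] Derivation k R R :=
    LinearEquiv.ofBijective (dualToDer E (maximalIdeal R) hI)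
      (dualToDer_bijective E _ hE hI (fun D f g => rank_one hdim hfin D E f g) hx hxm)
  have htl : Function.Injective (Module.Dual.eval R (Derivation k R R)) :=
    torsionless_of_inj e.symm.toLinearMap e.symm.injective dual_torsionless
  have h1 : TotRefl R (Derivation k R R) := totRefl_of_gdim hp n _ hG htl
  have h2 : TotRefl R (Module.Dual R (maximalIdeal R)) := h1.congr e.symm
  have h3 : Function.Injective (Module.Dual.eval R (maximalIdeal R)) := by
    intro a b hab
    apply Subtype.ext
    exact LinearMap.congr_fun hab (maximalIdeal R).subtype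
  have h4 : TotRefl R (maximalIdeal R) := totRefl_of_dual hp h3 h2
  exact injDim_of_max h4.ext

end Run7.h988
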