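import Pool.Agent.Run7.h988.TR

/-!
# Reduced Noetherian local rings of dimension one
-/

set_option autoImplicit false
set_option linter.unusedSectionVars false
set_option linter.style.haveILetI false

open IsLocalRing

universe u

namespace Run7.h988

variable {R : Type u} [CommRing R] [IsLocalRing R] [IsNoetherianRing R]

theorem krullDimLE_of (h : ringKrullDim R = 1) : Ring.KrullDimLE 1 R :=
  Ring.krullDimLE_iff.mpr (le_of_eq h)

theorem prime_eq (h : ringKrullDim R = 1) {x : R} (hx : x ∈ nonZeroDivisors R) (p : Ideal R)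
    (hp : p.IsPrime) (hxp : x ∈ p) : p = maximalIdeal R := by
  have := krullDimLE_of h
  rcases Ring.krullDimLE_one_iff.1 this p hp with h1 | h1
  · exact absurd hx (notMem_nonZeroDivisors_of_mem_mem_minimalPrimes hxp h1)
  · exact eq_maximalIdeal h1

theorem exists_regular [IsReduced R] (h : ringKrullDim R = 1) :
    ∃ x ∈ maximalIdeal R, x ∈ nonZeroDivisors R := by
  by_contra hcon
  push Not at hcon
  have h1 : ((maximalIdeal R : Ideal R) : Set R) ⊆ ⋃ p ∈ minimalPrimes R, (p : Set R) := by
    intro y hy
    by_contra hy'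
    simp only [Set.mem_iUnion, not_exists] at hy'
    apply hcon y hy
    rw [mem_nonZeroDivisors_iff_right]
    intro a ha
    have h2 : a ∈ nilradical R := by
      rw [nilradical, ← Ideal.sInf_minimalPrimes, Ideal.mem_sInf]
      intro p hp
      have hpp : p.IsPrime := hp.1.1
      have h3 : a * y ∈ p := by rw [ha]; exact p.zero_mem
      exact (hpp.mem_or_mem h3).resolve_right (hy' p hp)
    rw [nilradical_eq_zero] at h2
    exact h2
  have h2 := (Ideal.subset_union_prime_finite (minimalPrimes.finite_of_isNoetherianRing R)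
    (f := id) ⊥ ⊥ (fun p hp _ _ => (show p.IsPrime from hp.1.1)) (I := maximalIdeal R)).1 h1
  obtain ⟨p, hp, hle⟩ := h2
  have hpp : p.IsPrime := hp.1.1
  have hpm : p = maximalIdeal R := le_antisymm (le_maximalIdeal hpp.ne_top) hle
  have h3 : Ring.KrullDimLE 0 R := by
    rw [Ring.krullDimLE_zero_iff]
    intro I hI
    have h4 : p ≤ I := hp.2 ⟨hI, bot_le⟩ (by
      show I ≤ p
      rw [hpm]; exact le_maximalIdeal hI.ne_top)
    have h5 : I = maximalIdeal R := le_antisymm (le_maximalIdeal hI.ne_top) (hpm ▸ h4)
    rw [h5]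
    infer_instance
  have h6 := Ring.krullDimLE_iff.1 h3
  rw [h] at h6
  exact absurd h6 (by decide)

theorem pow_le_span (h : ringKrullDim R = 1) {x : R} (hx : x ∈ nonZeroDivisors R) :
    ∃ n : ℕ, (maximalIdeal R) ^ n ≤ Ideal.span {x} := by
  apply Ideal.exists_pow_le_of_le_radical_of_fg
  · rw [Ideal.radical_eq_sInf]
    apply le_sInf
    intro p hp
    rw [prime_eq h hx p hp.2 (hp.1 (Ideal.mem_span_singleton_self x))]
  · exact IsNoetherian.noetherian _

theorem exists_par (h : ringKrullDim R = 1) {x : R} (hxm : x ∈ maximalIdeal R)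
    (hx : x ∈ nonZeroDivisors R) : ∃ s, Par R x s := by
  classical
  have hex := pow_le_span h hx
  obtain ⟨n, hn⟩ : ∃ n, n = Nat.find hex := ⟨_, rfl⟩
  have h1 : (maximalIdeal R) ^ n ≤ Ideal.span {x} := hn ▸ Nat.find_spec hex
  obtain ⟨n, rfl⟩ : ∃ j, n = j + 1 := by
    rcases n with _ | n
    · exfalso
      rw [pow_zero, Ideal.one_eq_top, top_le_iff, Ideal.span_singleton_eq_top] at h1
      exact (mem_maximalIdeal x).1 hxm h1
    · exact ⟨n, rfl⟩
  have h2 : ¬ (maximalIdeal R) ^ n ≤ Ideal.span {x} := Nat.find_min hex (by omega)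
  obtain ⟨s, hs, hsx⟩ := SetLike.not_le_iff_exists.1 h2
  refine ⟨s, hxm, fun a ha => ?_, ?_, ?_⟩
  · exact (mem_nonZeroDivisors_iff_left.1 hx) a ha
  · rw [← Ideal.mem_span_singleton]
    exact hsx
  · intro y hy
    rw [← Ideal.mem_span_singleton]
    apply h1
    rw [pow_succ']
    exact Ideal.mul_mem_mul hy hs

theorem Par.nzd {x s : R} (h : Par R x s) : x ∈ nonZeroDivisors R :=
  mem_nonZeroDivisors_iff_left.2 h.reg

section kfin

variable {k : Type*} [Field k] [Algebra k R]

theorem finite_of_isFiniteLength' [Module.Finite k (ResidueField R)] {N : Type u} [AddCommGroup N]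
    [Module R N] (hN : IsFiniteLength R N) :
    @Module.Finite k N _ _ (Module.compHom N (algebraMap k R)) := by
  induction hN with
  | of_subsingleton =>
    rename_i M _ _ _
    letI := Module.compHom M (algebraMap k R)
    infer_instance
  | of_simple_quotient _ ih =>
    rename_i M _ _ S hS _
    obtain ⟨I, hI, ⟨e⟩⟩ := isSimpleModule_iff_quot_maximal.1 hS
    have hI' : I = maximalIdeal R := eq_maximalIdeal hI
    subst hI'
    letI m1 : Module k M := Module.compHom M (algebraMap k R)
    haveI t1 : IsScalarTower k R M := ⟨fun c r m => by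
      show (c • r) • m = algebraMap k R c • r • m
      rw [smul_smul, Algebra.smul_def]⟩
    have h1 : Module.Finite k S := by
      have h0 := ih
      convert h0
    have h2 : Module.Finite k (M ⧸ S) := by
      let e' : (M ⧸ S) ≃ₗ[k] (ResidueField R) := e.restrictScalars k
      exact Module.Finite.equiv e'.symm
    let N' : Submodule k M := S.restrictScalars k
    have h3 : Module.Finite k N' := h1
    have h4 : Module.Finite k (M ⧸ N') := h2
    exact Module.Finite.of_submodule_quotient N'

theorem finite_of_isFiniteLength [Module.Finite k (ResidueField R)] {N : Type u} [AddCommGroup N]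
    [Module R N] [i1 : Module k N] [IsScalarTower k R N] (hN : IsFiniteLength R N) :
    Module.Finite k N := by
  have h1 : Module.compHom N (algebraMap k R) = i1 := by
    apply Module.ext
    funext c m
    show algebraMap k R c • m = c • m
    rw [algebraMap_smul]
  have h2 := finite_of_isFiniteLength' (k := k) hN
  rw [h1] at h2
  exact h2

end kfin

end Run7.h988
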