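import Mathlib

/-!
# Vanishing of `Ext` along short exact sequences of modules
-/

set_option autoImplicit false

open CategoryTheory Abelian

universe u

namespace Run7.h988

/-- `Ext^i_R(M, N) = 0` -/
abbrev EV (R : Type u) [CommRing R] (M N : Type u) [AddCommGroup M] [Module R M] [AddCommGroup N]
    [Module R N] (i : ℕ) : Prop :=
  Subsingleton (Abelian.Ext (ModuleCat.of R M) (ModuleCat.of R N) i)

variable {R : Type u} [CommRing R] {A B C M N : Type u} [AddCommGroup A] [Module R A]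
  [AddCommGroup B] [Module R B] [AddCommGroup C] [Module R C] [AddCommGroup M] [Module R M]
  [AddCommGroup N] [Module R N]

/-- the short complex of an exact sequence -/
def sc (f : A →ₗ[R] B) (g : B →ₗ[R] C) (h : Function.Exact f g) :
    ShortComplex (ModuleCat.{u} R) :=
  ShortComplex.mk (ModuleCat.ofHom f) (ModuleCat.ofHom g) (by
    ext x
    exact (h (f x)).2 ⟨x, rfl⟩)

theorem sc_shortExact (f : A →ₗ[R] B) (g : B →ₗ[R] C) (h : Function.Exact f g)
    (hf : Function.Injective f) (hg : Function.Surjective g) : (sc f g h).ShortExact where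
  exact := by
    apply ShortComplex.Exact.moduleCat_of_range_eq_ker
    apply le_antisymm
    · rintro _ ⟨x, rfl⟩
      exact (h (f x)).2 ⟨x, rfl⟩
    · intro y hy
      exact (h y).1 hy
  mono_f := (ModuleCat.mono_iff_injective _).2 hf
  epi_g := (ModuleCat.epi_iff_surjective _).2 hg

theorem ev_congr_left (e : M ≃ₗ[R] A) (i : ℕ) : EV R M N i ↔ EV R A N i := by
  have h : ∀ {A B : ModuleCat.{u} R} (_ : A ≅ B) (C : ModuleCat.{u} R),
      Subsingleton (Ext A C i) → Subsingleton (Ext B C i) := by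
    intro A B φ C hA
    refine subsingleton_of_forall_eq 0 fun x => ?_
    have h1 : (Ext.mk₀ φ.hom).comp x (zero_add i) = 0 := Subsingleton.elim _ _
    have h2 : (Ext.mk₀ φ.inv).comp ((Ext.mk₀ φ.hom).comp x (zero_add i)) (zero_add i) = x := by
      rw [Ext.mk₀_comp_mk₀_assoc]
      simp
    rw [← h2, h1]
    simp
  exact ⟨h e.toModuleIso _, h e.symm.toModuleIso _⟩

/-- if `Ext^1(C, N) = 0` then homomorphisms `A → N` extend to `B` -/
theorem extend_of_ev (f : A →ₗ[R] B) (g : B →ₗ[R] C) (h : Function.Exact f g)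
    (hf : Function.Injective f) (hg : Function.Surjective g) (hC : EV R C N 1)
    (φ : A →ₗ[R] N) : ∃ ψ : B →ₗ[R] N, ψ ∘ₗ f = φ := by
  have hS := sc_shortExact f g h hf hg
  have h1 : hS.extClass.comp (Ext.mk₀ (ModuleCat.ofHom φ : (sc f g h).X₁ ⟶ ModuleCat.of R N))
      (add_comm 1 0) = 0 := @Subsingleton.elim _ hC _ _
  obtain ⟨y, hy⟩ := Ext.contravariant_sequence_exact₁ hS (ModuleCat.of R N) _
    (add_comm 1 0) h1
  obtain ⟨ψ, rfl⟩ := (Ext.mk₀_bijective _ _).2 y
  rw [Ext.mk₀_comp_mk₀] at hy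
  have h2 := (Ext.mk₀_bijective _ _).1 hy
  exact ⟨ψ.hom, congrArg ModuleCat.Hom.hom h2⟩

/-- if homomorphisms `A → N` extend to `B` and `Ext^1(B, N) = 0` then `Ext^1(C, N) = 0` -/
theorem ev_one_of_extend (f : A →ₗ[R] B) (g : B →ₗ[R] C) (h : Function.Exact f g)
    (hf : Function.Injective f) (hg : Function.Surjective g) (hB : EV R B N 1)
    (hφ : ∀ φ : A →ₗ[R] N, ∃ ψ : B →ₗ[R] N, ψ ∘ₗ f = φ) : EV R C N 1 := by
  have hS := sc_shortExact f g h hf hg
  refine subsingleton_of_forall_eq 0 fun x => ?_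
  obtain ⟨y, hy⟩ := Ext.contravariant_sequence_exact₃ hS (ModuleCat.of R N) x
    (@Subsingleton.elim _ hB _ _) (add_comm 1 0)
  obtain ⟨φ, rfl⟩ := (Ext.mk₀_bijective _ _).2 y
  obtain ⟨ψ, hψ⟩ := hφ φ.hom
  let ψ' : (sc f g h).X₂ ⟶ ModuleCat.of R N := ModuleCat.ofHom ψ
  have h2 : (sc f g h).f ≫ ψ' = φ := by
    ext z
    exact LinearMap.congr_fun hψ z
  rw [← hy, ← h2, ← Ext.mk₀_comp_mk₀, ShortComplex.ShortExact.extClass_comp_assoc]
  rfl

/-- `Ext^i(A) = 0` and `Ext^(i+1)(B) = 0` imply `Ext^(i+1)(C) = 0` -/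
theorem ev_third (f : A →ₗ[R] B) (g : B →ₗ[R] C) (h : Function.Exact f g)
    (hf : Function.Injective f) (hg : Function.Surjective g) (i : ℕ) (hA : EV R A N i)
    (hB : EV R B N (i + 1)) : EV R C N (i + 1) := by
  have hS := sc_shortExact f g h hf hg
  refine subsingleton_of_forall_eq 0 fun x => ?_
  obtain ⟨y, hy⟩ := Ext.contravariant_sequence_exact₃ hS (ModuleCat.of R N) x
    (@Subsingleton.elim _ hB _ _) (add_comm 1 i)
  have h2 : y = 0 := @Subsingleton.elim _ hA _ _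
  rw [← hy, h2, Ext.comp_zero]
  rfl

/-- `Ext^i(B) = 0` and `Ext^(i+1)(C) = 0` imply `Ext^i(A) = 0` -/
theorem ev_first (f : A →ₗ[R] B) (g : B →ₗ[R] C) (h : Function.Exact f g)
    (hf : Function.Injective f) (hg : Function.Surjective g) (i : ℕ) (hB : EV R B N i)
    (hC : EV R C N (i + 1)) : EV R A N i := by
  have hS := sc_shortExact f g h hf hg
  refine subsingleton_of_forall_eq 0 fun x => ?_
  obtain ⟨y, hy⟩ := Ext.contravariant_sequence_exact₁ hS (ModuleCat.of R N) x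
    (add_comm 1 i) (@Subsingleton.elim _ hC _ _)
  have h2 : y = 0 := @Subsingleton.elim _ hB _ _
  rw [← hy, h2, Ext.comp_zero]
  rfl

/-- `Ext^i(A) = 0` and `Ext^i(C) = 0` imply `Ext^i(B) = 0` -/
theorem ev_second (f : A →ₗ[R] B) (g : B →ₗ[R] C) (h : Function.Exact f g)
    (hf : Function.Injective f) (hg : Function.Surjective g) (i : ℕ) (hA : EV R A N i)
    (hC : EV R C N i) : EV R B N i := by
  have hS := sc_shortExact f g h hf hg
  refine subsingleton_of_forall_eq 0 fun x => ?_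
  obtain ⟨y, hy⟩ := Ext.contravariant_sequence_exact₂ hS (ModuleCat.of R N) x
    (@Subsingleton.elim _ hA _ _)
  have h2 : y = 0 := @Subsingleton.elim _ hC _ _
  rw [← hy, h2, Ext.comp_zero]
  rfl

/-- `Ext^i(P, N) = 0` for `P` projective and `i ≥ 1` -/
theorem ev_proj [Module.Projective R M] (i : ℕ) (hi : 1 ≤ i) : EV R M N i := by
  obtain ⟨i, rfl⟩ : ∃ j, i = j + 1 := ⟨i - 1, by omega⟩
  have : Projective (ModuleCat.of R M) := ModuleCat.projective_of_categoryTheory_projective _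
  exact Ext.subsingleton_of_projective _ _ _

/-- `Ext^1(M, A) = 0` implies that homomorphisms `M → C` lift to `B` -/
theorem lift_of_ev (f : A →ₗ[R] B) (g : B →ₗ[R] C) (h : Function.Exact f g)
    (hf : Function.Injective f) (hg : Function.Surjective g) (hM : EV R M A 1)
    (φ : M →ₗ[R] C) : ∃ ψ : M →ₗ[R] B, g ∘ₗ ψ = φ := by
  have hS := sc_shortExact f g h hf hg
  obtain ⟨y, hy⟩ := Ext.covariant_sequence_exact₃ (ModuleCat.of R M) hS
    (Ext.mk₀ (ModuleCat.ofHom φ : ModuleCat.of R M ⟶ (sc f g h).X₃)) rfl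
    (@Subsingleton.elim _ hM _ _)
  obtain ⟨ψ, rfl⟩ := (Ext.mk₀_bijective _ _).2 y
  rw [Ext.mk₀_comp_mk₀] at hy
  have h2 := (Ext.mk₀_bijective _ _).1 hy
  exact ⟨ψ.hom, congrArg ModuleCat.Hom.hom h2⟩

end Run7.h988
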