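import Pool.Agent.Run7.h988.TypeOne

/-!
# Regularity for complete rings, and the multiplicity theorem
-/

set_option autoImplicit false
set_option linter.unusedSectionVars false

open IsLocalRing CategoryTheory

universe u

namespace Run7.h988

variable {R : Type u} [CommRing R] {k : Type*} [Field k] [CharZero k] [Algebra k R]

theorem flat_step (D : Derivation k R R) {z : R} (hz : D z = 1) (N : ℕ) (h : R)
    (hh : z ^ N ∣ D h) : ∃ h' : R, z ^ (N + 1) ∣ D h' ∧ z ^ (N + 1) ∣ h' - h := by
  obtain ⟨b, h2⟩ := hh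
  refine ⟨h - z ^ (N + 1) * (((N + 1 : ℕ) : k)⁻¹ • b), ?_, ?_⟩
  · have hne : ((N + 1 : ℕ) : k) ≠ 0 := Nat.cast_ne_zero.2 (Nat.succ_ne_zero N)
    have h4 : ((N + 1 : ℕ) : R) * (((N + 1 : ℕ) : k)⁻¹ • b) = b := by
      rw [Algebra.smul_def, ← map_natCast (algebraMap k R) (N + 1), ← mul_assoc, ← map_mul,
        mul_inv_cancel₀ hne, map_one, one_mul]
    refine ⟨- D (((N + 1 : ℕ) : k)⁻¹ • b), ?_⟩
    rw [map_sub, h2, Derivation.leibniz, Derivation.leibniz_pow, hz]
    simp only [smul_eq_mul, nsmul_eq_mul, Nat.add_sub_cancel, mul_one]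
    linear_combination (- z ^ N) * h4
  · exact ⟨-(((N + 1 : ℕ) : k)⁻¹ • b), by ring⟩

variable [IsLocalRing R] [IsNoetherianRing R] [IsReduced R]

theorem map_pow_succ_mem (D : Derivation k R R) (N : ℕ) {y : R}
    (hy : y ∈ (maximalIdeal R) ^ (N + 1)) : D y ∈ (maximalIdeal R) ^ N := by
  induction N generalizing y with
  | zero => simp
  | succ N ih =>
    rw [pow_succ'] at hy
    refine Submodule.mul_induction_on hy ?_ ?_
    · intro a ha b hb
      rw [Derivation.leibniz]
      simp only [smul_eq_mul]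
      refine Ideal.add_mem _ ?_ ?_
      · rw [pow_succ']
        exact Ideal.mul_mem_mul ha (ih hb)
      · exact Ideal.mul_mem_right _ _ hb
    · intro a b ha hb
      rw [map_add]
      exact Ideal.add_mem _ ha hb

theorem exists_flat_limit [IsAdicComplete (maximalIdeal R) R] (D : Derivation k R R) {z : R}
    (hz : D z = 1) (hzm : z ∈ maximalIdeal R) (f : R) : ∃ h : R, D h = 0 ∧ z ∣ h - f := by
  choose F hF1 hF2 using fun (N : ℕ) (h : {h : R // z ^ N ∣ D h}) =>
    flat_step D hz N h.1 h.2
  let seq : (N : ℕ) → {h : R // z ^ N ∣ D h} := fun N =>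
    Nat.rec (motive := fun N => {h : R // z ^ N ∣ D h}) ⟨f, by simp⟩
      (fun N h => ⟨F N h, hF1 N h⟩) N
  have hseq : ∀ N, z ^ (N + 1) ∣ (seq (N + 1)).1 - (seq N).1 := fun N => hF2 N (seq N)
  have hseq' : ∀ m n, m ≤ n → z ^ (m + 1) ∣ (seq n).1 - (seq m).1 := by
    intro m n hmn
    induction n, hmn using Nat.le_induction with
    | base => simp
    | succ n hmn ih =>
      have h1 := dvd_add ((pow_dvd_pow z (by omega)).trans (hseq n)) ih
      have h2 : (seq (n + 1)).1 - (seq n).1 + ((seq n).1 - (seq m).1) =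
          (seq (n + 1)).1 - (seq m).1 := by ring
      rw [h2] at h1
      exact h1
  have hpow : ∀ (m : ℕ) (y : R), z ^ m ∣ y → y ∈ (maximalIdeal R) ^ m := by
    rintro m _ ⟨c, rfl⟩
    exact Ideal.mul_mem_right _ _ (Ideal.pow_mem_pow hzm m)
  obtain ⟨h, hh⟩ := IsPrecomplete.prec' (I := maximalIdeal R) (fun n => (seq n).1) (by
    intro m n hmn
    rw [SModEq.sub_mem, smul_eq_mul, Ideal.mul_top]
    have h1 := hpow m _ ((pow_dvd_pow z (Nat.le_succ m)).trans (hseq' m n hmn))
    rw [← neg_sub]
    exact (Submodule.neg_mem_iff _).2 h1)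
  have hh' : ∀ n, (seq n).1 - h ∈ (maximalIdeal R) ^ n := by
    intro n
    have := hh n
    rwa [SModEq.sub_mem, smul_eq_mul, Ideal.mul_top] at this
  refine ⟨h, ?_, ?_⟩
  · have h1 : D h ∈ (⨅ i : ℕ, (maximalIdeal R) ^ i : Ideal R) := by
      rw [Ideal.mem_iInf]
      intro n
      have h2 : D h = D (seq (n + 1)).1 - D ((seq (n + 1)).1 - h) := by
        rw [map_sub]; ring
      rw [h2]
      refine Ideal.sub_mem _ ?_ (map_pow_succ_mem D n (hh' (n + 1)))
      exact hpow n _ ((pow_dvd_pow z (Nat.le_succ n)).trans (seq (n + 1)).2)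
    rw [Ideal.iInf_pow_eq_bot_of_isLocalRing _ (Ideal.IsPrime.ne_top inferInstance)] at h1
    exact h1
  · rw [← Ideal.mem_span_singleton, ← Ideal.Quotient.eq_zero_iff_mem]
    have h1 : (Ideal.Quotient.mk (Ideal.span {z}) (h - f)) ∈
        (⨅ i : ℕ, (maximalIdeal R) ^ i • ⊤ : Submodule R (R ⧸ Ideal.span {z})) := by
      rw [Submodule.mem_iInf]
      intro n
      have h2 : h - f = ((seq n).1 - (seq 0).1) - ((seq n).1 - h) := by
        show h - f = ((seq n).1 - f) - ((seq n).1 - h)
        ring
      have h3 : Ideal.Quotient.mk (Ideal.span {z}) ((seq n).1 - (seq 0).1) = 0 := by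
        rw [Ideal.Quotient.eq_zero_iff_mem, Ideal.mem_span_singleton]
        have := hseq' 0 n (Nat.zero_le _)
        simpa using this
      rw [h2, map_sub, h3, zero_sub]
      apply (Submodule.neg_mem_iff _).2
      have h4 : Ideal.Quotient.mk (Ideal.span {z}) ((seq n).1 - h) =
          ((seq n).1 - h) • (1 : R ⧸ Ideal.span {z}) := by
        rw [Algebra.smul_def, mul_one]
        rfl
      rw [h4]
      exact Submodule.smul_mem_smul (hh' n) Submodule.mem_top
    rw [Ideal.iInf_pow_smul_eq_bot_of_isLocalRing _ (Ideal.IsPrime.ne_top inferInstance)] at h1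
    exact h1

theorem regular_of_one_complete [IsAdicComplete (maximalIdeal R) R]
    (hdim : ringKrullDim R = 1) (D : Derivation k R R) {z : R} (hz : D z = 1)
    (hzm : z ∈ maximalIdeal R) :
    (∀ a : R, z * a = 0 → a = 0) ∧ ∀ f ∈ maximalIdeal R, z ∣ f := by
  have hreg : ∀ a : R, z * a = 0 → a = 0 := by
    intro a ha
    have h1 : D (z * a) = 0 := by rw [ha, map_zero]
    rw [Derivation.leibniz, hz] at h1
    simp only [smul_eq_mul, mul_one] at h1
    have h2 : a ^ 2 = 0 := by linear_combination a * h1 - D a * ha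
    exact pow_eq_zero_iff (two_ne_zero) |>.1 h2
  refine ⟨hreg, fun f hf => ?_⟩
  have hznz : z ∈ nonZeroDivisors R := mem_nonZeroDivisors_iff_left.2 hreg
  obtain ⟨n, hn⟩ := pow_le_span hdim hznz
  obtain ⟨h, hD, h1⟩ := exists_flat_limit D hz hzm f
  set c := n + 1 with hc
  have hfc : z ∣ f ^ c := by
    rw [← Ideal.mem_span_singleton]
    apply hn
    exact Ideal.pow_le_pow_right (by omega) (Ideal.pow_mem_pow hf c)
  have hhc : z ∣ h ^ c := by
    have h3 : z ∣ h ^ c - f ^ c := h1.trans (sub_dvd_pow_sub_pow h f c)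
    have := dvd_add h3 hfc
    simpa using this
  have h4 : h ^ c ∈ (⨅ i : ℕ, (maximalIdeal R) ^ i : Ideal R) := by
    rw [Ideal.mem_iInf]
    intro N
    obtain ⟨w, hw⟩ := dvd_of_flat D hz hreg hhc (N := N) (by
      rw [Derivation.leibniz_pow, hD]
      simp)
    rw [hw]
    exact Ideal.pow_le_pow_right (Nat.le_succ N)
      (Ideal.mul_mem_right _ _ (Ideal.pow_mem_pow hzm _))
  rw [Ideal.iInf_pow_eq_bot_of_isLocalRing _ (Ideal.IsPrime.ne_top inferInstance)] at h4
  have h5 : h = 0 := pow_eq_zero_iff (by omega) |>.1 h4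
  rw [h5, zero_sub] at h1
  exact (dvd_neg).1 h1

/-- **Regularity**: if some derivation takes a unit value, `R` is regular, and so of injective
dimension at most one. -/
theorem injDim_of_unit' [Module.Finite k (ResidueField R)] (hdim : ringKrullDim R = 1)
    (hR : IsAdicComplete (maximalIdeal R) R ∨
      Module.Finite R (integralClosure R (FractionRing R)))
    (D : Derivation k R R) {f : R} (hf : IsUnit (D f)) :
    HasInjectiveDimensionLE (ModuleCat.of R R) 1 := by
  rcases hR with hR | hR
  · obtain ⟨z, hzm, hz⟩ := exists_mem_unit D hf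
    obtain ⟨v, hv⟩ := hz
    have h1 : ((↑v⁻¹ : R) • D) z = 1 := by
      show (↑v⁻¹ : R) * D z = 1
      rw [← hv]
      exact v.inv_mul
    obtain ⟨hreg, hdvd⟩ := regular_of_one_complete hdim ((↑v⁻¹ : R) • D) h1 hzm
    apply injDim_of_max
    intro i hi
    have e : R ≃ₗ[R] maximalIdeal R := by
      refine LinearEquiv.ofBijective ((mx R z).codRestrict (maximalIdeal R) (fun a => ?_))
        ⟨?_, ?_⟩
      · rw [mx_apply]
        exact Ideal.mul_mem_left _ _ hzm
      · intro a b hab
        exact mx_inj hreg (congrArg Subtype.val hab)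
      · rintro ⟨y, hy⟩
        obtain ⟨c, rfl⟩ := hdvd y hy
        exact ⟨c, Subtype.ext (by simp [mul_comm])⟩
    exact (ev_congr_left e i).1 (ev_proj i hi)
  · exact injDim_of_unit hdim hR D hf

/-- evaluations separate derivations -/
theorem der_torsionless : Function.Injective (Module.Dual.eval R (Derivation k R R)) := by
  intro D E h
  ext f
  exact LinearMap.congr_fun h (evd f)

/-- **Theorem 2** -/
theorem small_mult [Module.Finite k (ResidueField R)] (hdim : ringKrullDim R = 1)
    (hR : IsAdicComplete (maximalIdeal R) R ∨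
      Module.Finite R (integralClosure R (FractionRing R)))
    (hD : ∃ D : Derivation k R R, D ≠ 0) (n : ℕ) (hG : GdimLE R n (Derivation k R R)) (x : R)
    (hxm : x ∈ maximalIdeal R) (hx : x ∈ nonZeroDivisors R) :
    HasInjectiveDimensionLE (ModuleCat.of R R) 1 ∨
      (2 ≤ Module.length R (soc x) ∧
        2 * Module.length R (soc x) + 2 ≤ Module.length R (R ⧸ Ideal.span {x})) := by
  obtain ⟨s, hp⟩ := exists_par hdim hxm hx
  by_cases hcon : ∀ i : ℕ, 2 ≤ i → EV R (ResidueField R) R i
  · exact Or.inl (injDim_le_one hcon)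
  · have hK := krullDimLE_of hdim
    have h1 : TotRefl R (Derivation k R R) := totRefl_of_gdim hp n _ hG der_torsionless
    by_cases hu : ∃ (φ : Module.Dual R (Derivation k R R)) (D : Derivation k R R),
        IsUnit (φ D)
    · left
      obtain ⟨φ, D, hφ⟩ := hu
      have h2 := span_evd hp h1
      have h3 : ∃ f, IsUnit (D f) := by
        by_contra hno
        push Not at hno
        have h4 : ∀ ψ : Module.Dual R (Derivation k R R), ψ D ∈ maximalIdeal R := by
          intro ψ
          have h5 : ψ ∈ Submodule.span R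
              (Set.range (evd : R → Module.Dual R (Derivation k R R))) := by
            rw [h2]; exact Submodule.mem_top
          induction h5 using Submodule.span_induction with
          | mem y hy =>
            obtain ⟨f, rfl⟩ := hy
            exact (mem_maximalIdeal _).2 (hno f)
          | zero => simp
          | add y z _ _ ih1 ih2 => exact Ideal.add_mem _ ih1 ih2
          | smul r y _ ih => exact Ideal.mul_mem_left _ _ ih
        exact (mem_maximalIdeal _).1 (h4 φ) hφ
      obtain ⟨f, hf⟩ := h3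
      exact injDim_of_unit' hdim hR D hf
    · right
      have h2 : IsG R (Derivation k R R) := by
        refine ⟨h1, ?_, ?_⟩
        · obtain ⟨D, hD⟩ := hD
          exact ⟨D, 0, hD⟩
        · intro φ D
          rw [mem_maximalIdeal]
          intro h
          exact hu ⟨φ, D, h⟩
      refine ⟨?_, length_bound hp hcon h2⟩
      by_contra hlt
      apply hcon
      refine injDim_of_type_one hp (isFiniteLength_quotient_span_singleton R hx) ?_
      rw [not_le] at hlt
      exact ENat.lt_add_one_iff (by simp) |>.1 (by simpa [one_add_one_eq_two] using hlt)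

end Run7.h988
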