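import Pool.Agent.Run7.h988.QH
import Pool.Agent.Run7.h988.RegC

/-!
# The differentials of a ring of depth one whose derivation module has finite G-dimension
-/

set_option autoImplicit false
set_option linter.unusedSectionVars false

open IsLocalRing CategoryTheory

universe u

namespace Run7.h988

variable {R : Type u} [CommRing R] {k : Type*} [CommRing k] [Algebra k R]

/-- derivations and functionals on a module of differentials -/
noncomputable def derEquiv {Ω : Type u} [AddCommGroup Ω] [Module R Ω] [Module k Ω]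
    [IsScalarTower k R Ω]
    (d : Derivation k R Ω)
    (h : ∀ D : Derivation k R R, ∃! φ : Ω →ₗ[R] R, ∀ f, φ (d f) = D f) :
    Module.Dual R Ω ≃ₗ[R] Derivation k R R := by
  refine LinearEquiv.ofBijective
    { toFun := fun φ => φ.compDer d
      map_add' := fun φ ψ => ?_
      map_smul' := fun r φ => ?_ } ⟨?_, ?_⟩
  · ext f
    rfl
  · ext f
    rfl
  · intro φ ψ hφψ
    obtain ⟨χ, _, hχ⟩ := h (φ.compDer d)
    have h1 : φ = χ := hχ φ (fun f => rfl)
    have h2 : ψ = χ := hχ ψ (fun f => (DFunLike.congr_fun hφψ f).symm)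
    rw [h1, h2]
  · intro D
    obtain ⟨φ, hφ, _⟩ := h D
    refine ⟨φ, ?_⟩
    ext f
    exact hφ f

theorem depth_one [IsLocalRing R] [IsNoetherianRing R] {Ω : Type u} [AddCommGroup Ω]
    [Module R Ω] [Module k Ω] [IsScalarTower k R Ω] [Module.Finite R Ω] (d : Derivation k R Ω)
    (h : ∀ D : Derivation k R R, ∃! φ : Ω →ₗ[R] R, ∀ f, φ (d f) = D f) {x s : R}
    (hp : Par R x s) (n : ℕ) (hG : GdimLE R n (Derivation k R R)) :
    TotRefl R (Derivation k R R) ∧ Function.Surjective (Module.Dual.eval R Ω) ∧
      TotRefl R (Ω ⧸ LinearMap.ker (Module.Dual.eval R Ω)) := by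
  have e := derEquiv d h
  have htl : Function.Injective (Module.Dual.eval R (Derivation k R R)) :=
    torsionless_of_inj e.symm.toLinearMap e.symm.injective dual_torsionless
  have h1 : TotRefl R (Derivation k R R) := totRefl_of_gdim hp n _ hG htl
  have h2 : TotRefl R (Module.Dual R Ω) := h1.congr e.symm
  have h3 := eval_surjective hp h2
  exact ⟨h1, h3, h2.dual.congr
    ((Module.Dual.eval R Ω).quotKerEquivOfSurjective h3).symm⟩

end Run7.h988
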