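import Pool.Agent.Run7.h988.Mult

/-!
# The length bound
-/

set_option autoImplicit false
set_option linter.unusedSectionVars false

open IsLocalRing CategoryTheory

universe u

namespace Run7.h988

variable {R : Type u} [CommRing R] [IsLocalRing R] {G : Type u} [AddCommGroup G] [Module R G]

/-- the submodule `x G` -/
def xM (x : R) (G : Type u) [AddCommGroup G] [Module R G] : Submodule R G :=
  LinearMap.range (x • (LinearMap.id : G →ₗ[R] G))

theorem mem_xM {x : R} {g : G} : g ∈ xM x G ↔ ∃ h, x • h = g := Iff.rfl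

/-- the socle of `R / x R` -/
def soc (x : R) : Submodule R (R ⧸ Ideal.span {x}) where
  carrier := {z | ∀ y ∈ maximalIdeal R, y • z = 0}
  add_mem' := by
    intro a b ha hb y hy
    rw [smul_add, ha y hy, hb y hy, add_zero]
  zero_mem' := by
    intro y _
    rw [smul_zero]
  smul_mem' := by
    intro c z hz y hy
    rw [smul_comm, hz y hy, smul_zero]

theorem mem_soc {x : R} {z : R ⧸ Ideal.span {x}} :
    z ∈ soc x ↔ ∀ y ∈ maximalIdeal R, y • z = 0 := Iff.rfl

/-- the map `κ → N`, `1 ↦ z` for `m z = 0` -/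
def resMap {N : Type u} [AddCommGroup N] [Module R N] (z : N)
    (hz : ∀ y ∈ maximalIdeal R, y • z = 0) : ResidueField R →ₗ[R] N :=
  Submodule.liftQ (maximalIdeal R) (LinearMap.toSpanSingleton R N z) (fun y hy => by
    rw [LinearMap.mem_ker, LinearMap.toSpanSingleton_apply]
    exact hz y hy)

theorem resMap_residue {N : Type u} [AddCommGroup N] [Module R N] (z : N)
    (hz : ∀ y ∈ maximalIdeal R, y • z = 0) (r : R) : resMap z hz (residue R r) = r • z := rfl

/-- the maps `κ → R / x R` given by the elements of the socle -/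
def resL (x : R) : soc x →ₗ[R] (ResidueField R →ₗ[R] (R ⧸ Ideal.span {x})) where
  toFun t := resMap (t : R ⧸ Ideal.span {x}) t.2
  map_add' t t' := by
    apply LinearMap.ext
    intro r
    obtain ⟨r, rfl⟩ := residue_surjective r
    rw [LinearMap.add_apply, resMap_residue, resMap_residue, resMap_residue, ← smul_add]
    rfl
  map_smul' c t := by
    apply LinearMap.ext
    intro r
    obtain ⟨r, rfl⟩ := residue_surjective r
    rw [RingHom.id_apply, LinearMap.smul_apply, resMap_residue, resMap_residue, smul_comm c r]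
    rfl

theorem resL_residue (x : R) (t : soc x) (r : R) :
    resL x t (residue R r) = r • (t : R ⧸ Ideal.span {x}) := rfl

/-- for `x` regular and `R` not Gorenstein, the residue field is not a direct summand of
`G / x G`, `G` totally reflexive -/
theorem soc_le {x s : R} (hp : Par R x s)
    (hR : ¬ ∀ i : ℕ, 2 ≤ i → EV R (ResidueField R) R i) (hG : TotRefl R G) {n : ℕ}
    (π : (G ⧸ xM x G) →ₗ[R] (Fin n → ResidueField R)) (z : G ⧸ xM x G)
    (hz : ∀ y ∈ maximalIdeal R, y • z = 0) : π z = 0 := by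
  by_contra hne
  obtain ⟨j, hj⟩ : ∃ j, π z j ≠ 0 := by
    by_contra h
    push Not at h
    exact hne (funext h)
  apply hR
  intro i hi
  have hreg : ∀ g : G, x • g = 0 → g = 0 := by
    intro g hg
    apply hG.refl.1
    rw [map_zero]
    apply LinearMap.ext
    intro φ
    apply hp.reg
    show x * φ g = 0
    rw [← smul_eq_mul, ← map_smul, hg, map_zero]
  have hN : EV R (G ⧸ xM x G) R i := by
    obtain ⟨i, rfl⟩ : ∃ j, i = j + 1 := ⟨i - 1, by omega⟩
    refine ev_third (x • (LinearMap.id : G →ₗ[R] G)) (xM x G).mkQ ?_ ?_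
      (Submodule.mkQ_surjective _) i (hG.ext i (by omega)) (hG.ext (i + 1) (by omega))
    · intro g
      rw [Submodule.mkQ_apply, Submodule.Quotient.mk_eq_zero]
      rfl
    · rw [← LinearMap.ker_eq_bot, LinearMap.ker_eq_bot']
      exact hreg
  obtain ⟨c, hc⟩ := residue_surjective (π z j)⁻¹
  have hcz : ∀ y ∈ maximalIdeal R, y • (c • z) = 0 := by
    intro y hy
    rw [smul_comm, hz y hy, smul_zero]
  refine ev_retract (resMap (c • z) hcz) ((LinearMap.proj j) ∘ₗ π) ?_ i hN
  apply LinearMap.ext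
  intro r
  obtain ⟨r, rfl⟩ := residue_surjective r
  rw [LinearMap.comp_apply, resMap_residue, map_smul]
  have h5 : ((LinearMap.proj j) ∘ₗ π) (c • z) = c • π z j := by
    rw [map_smul]
    rfl
  rw [h5, Algebra.smul_def, Algebra.smul_def]
  show residue R r * (residue R c * π z j) = residue R r
  rw [hc, inv_mul_cancel₀ hj, mul_one]

/-- `G / x G → Hom(G*, R / x R)` -/
def beta (x : R) (G : Type u) [AddCommGroup G] [Module R G] :
    (G ⧸ xM x G) →ₗ[R] (Module.Dual R G →ₗ[R] (R ⧸ Ideal.span {x})) :=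
  Submodule.liftQ (xM x G)
    { toFun := fun g => (Submodule.mkQ (Ideal.span {x})) ∘ₗ (Module.Dual.eval R G g)
      map_add' := fun g h => by
        rw [map_add, LinearMap.comp_add]
      map_smul' := fun c g => by
        rw [map_smul, LinearMap.comp_smul]
        rfl }
    (by
      rintro _ ⟨h, rfl⟩
      rw [LinearMap.mem_ker]
      apply LinearMap.ext
      intro φ
      show Submodule.mkQ (Ideal.span {x}) (φ (x • h)) = 0
      rw [Submodule.mkQ_apply, Submodule.Quotient.mk_eq_zero, map_smul, smul_eq_mul,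
        Ideal.mem_span_singleton]
      exact dvd_mul_right _ _)

theorem beta_mk (x : R) (g : G) (φ : Module.Dual R G) :
    beta x G (Submodule.Quotient.mk g) φ = Submodule.mkQ (Ideal.span {x}) (φ g) := rfl

theorem beta_bijective {x s : R} (hp : Par R x s) (hG : TotRefl R G) :
    Function.Bijective (beta x G) := by
  constructor
  · rw [← LinearMap.ker_eq_bot, LinearMap.ker_eq_bot']
    intro z hz
    obtain ⟨g, rfl⟩ := Submodule.Quotient.mk_surjective _ z
    have h1 : ∀ φ : Module.Dual R G, x ∣ φ g := by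
      intro φ
      have h2 := LinearMap.congr_fun hz φ
      rw [beta_mk, LinearMap.zero_apply, Submodule.mkQ_apply, Submodule.Quotient.mk_eq_zero,
        Ideal.mem_span_singleton] at h2
      exact h2
    obtain ⟨Λ, hΛ⟩ := exists_div hp.reg (Module.Dual.eval R G g) h1
    obtain ⟨g', rfl⟩ := hG.refl.2 Λ
    rw [Submodule.Quotient.mk_eq_zero, mem_xM]
    refine ⟨g', ?_⟩
    apply hG.refl.1
    apply LinearMap.ext
    intro φ
    have h3 := hΛ φ
    show φ (x • g') = φ g
    rw [map_smul]
    exact h3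
  · intro Ψ
    obtain ⟨Φ, hΦ⟩ := lift_of_ev (mx R x) (Submodule.mkQ (Ideal.span {x})) (mx_exact x)
      (mx_inj hp.reg) (Submodule.mkQ_surjective _) (hG.extDual 1 le_rfl) Ψ
    obtain ⟨g, rfl⟩ := hG.refl.2 Φ
    refine ⟨Submodule.Quotient.mk g, ?_⟩
    rw [← hΦ]
    rfl

/-- the lower bound for the length of `G / x G` -/
theorem len_ge {x s : R} (hp : Par R x s)
    (hR : ¬ ∀ i : ℕ, 2 ≤ i → EV R (ResidueField R) R i) (hG : TotRefl R G) {n m : ℕ}
    (hn : IsMu R G n) (hm : IsMu R (Module.Dual R G) m) :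
    (n : ℕ∞) + m * Module.length R (soc x) ≤ Module.length R (G ⧸ xM x G) := by
  obtain ⟨π, hπs, hπk⟩ := hn
  obtain ⟨ρ, hρs, hρk⟩ := hm
  -- the map to `κ ^ n`
  have hle : xM x G ≤ LinearMap.ker π := by
    rintro _ ⟨h, rfl⟩
    rw [hπk]
    exact Submodule.smul_mem_smul hp.mem Submodule.mem_top
  let π' : (G ⧸ xM x G) →ₗ[R] (Fin n → ResidueField R) := Submodule.liftQ _ π hle
  have hπ's : Function.Surjective π' := by
    intro v
    obtain ⟨g, hg⟩ := hπs v
    exact ⟨Submodule.Quotient.mk g, hg⟩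
  -- the map from `S ^ m`
  let e := LinearEquiv.ofBijective (beta x G) (beta_bijective hp hG)
  let Ψ : (Fin m → soc x) →ₗ[R] (Module.Dual R G →ₗ[R] (R ⧸ Ideal.span {x})) :=
    ∑ i, (LinearMap.lcomp R (R ⧸ Ideal.span {x}) ((LinearMap.proj i) ∘ₗ ρ)) ∘ₗ resL x ∘ₗ
      LinearMap.proj i
  have hΨ : ∀ t φ, Ψ t φ = ∑ i, resL x (t i) (ρ φ i) := by
    intro t φ
    show (∑ i, (LinearMap.lcomp R (R ⧸ Ideal.span {x}) ((LinearMap.proj i) ∘ₗ ρ)) ∘ₗ resL x ∘ₗ
      LinearMap.proj i) t φ = _
    rw [LinearMap.sum_apply, LinearMap.sum_apply]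
    rfl
  have hΨi : Function.Injective Ψ := by
    rw [← LinearMap.ker_eq_bot, LinearMap.ker_eq_bot']
    intro t ht
    funext i
    obtain ⟨φ, hφ⟩ := hρs (Pi.single i 1)
    have h1 := hΨ t φ
    rw [ht, LinearMap.zero_apply, Finset.sum_eq_single i, hφ, Pi.single_eq_same] at h1
    · have h2 : resL x (t i) 1 = t i := by
        have := resL_residue x (t i) 1
        rw [map_one, one_smul] at this
        exact this
      rw [h2] at h1
      exact Subtype.ext h1.symm
    · intro j _ hj
      rw [hφ, Pi.single_eq_of_ne hj, map_zero]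
    · intro h
      exact absurd (Finset.mem_univ _) h
  have hΨm : ∀ t, ∀ y ∈ maximalIdeal R, y • Ψ t = 0 := by
    intro t y hy
    apply LinearMap.ext
    intro φ
    rw [LinearMap.smul_apply, hΨ, Finset.smul_sum, LinearMap.zero_apply]
    apply Finset.sum_eq_zero
    intro i _
    obtain ⟨r, hr⟩ := residue_surjective (ρ φ i)
    rw [← hr, resL_residue, smul_comm, (t i).2 y hy, smul_zero]
  let T : (Fin m → soc x) →ₗ[R] (G ⧸ xM x G) := e.symm.toLinearMap ∘ₗ Ψ
  have hTi : Function.Injective T := e.symm.injective.comp hΨi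
  have hTk : LinearMap.range T ≤ LinearMap.ker π' := by
    rintro _ ⟨t, rfl⟩
    rw [LinearMap.mem_ker]
    apply soc_le hp hR hG π'
    intro y hy
    rw [← map_smul]
    show e.symm (Ψ (y • t)) = 0
    rw [map_smul, hΨm t y hy, map_zero]
  have h1 : Module.length R (G ⧸ xM x G) = Module.length R (LinearMap.ker π') +
      Module.length R (Fin n → ResidueField R) :=
    Module.length_eq_add_of_exact (LinearMap.ker π').subtype π' Subtype.val_injective hπ's
      (by
        intro y
        simp)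
  have h2 : Module.length R (Fin n → ResidueField R) = n := by
    rw [Module.length_pi]
    have h3 : Module.length R (ResidueField R) = 1 := by
      have : IsSimpleModule R (ResidueField R) := by
        refine isSimpleModule_iff_quot_maximal.2 ⟨maximalIdeal R, inferInstance, ⟨?_⟩⟩
        exact LinearEquiv.refl R _
      exact Module.length_eq_one R _
    rw [h3]
    simp
  have h4 : (m : ℕ∞) * Module.length R (soc x) ≤ Module.length R (LinearMap.ker π') := by
    have h5 : Module.length R (Fin m → soc x) = m * Module.length R (soc x) := by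
      rw [Module.length_pi]
      simp
    rw [← h5]
    have h6 : Function.Injective (T.codRestrict (LinearMap.ker π')
        (fun t => hTk ⟨t, rfl⟩)) := by
      intro a b hab
      exact hTi (congrArg Subtype.val hab)
    exact Module.length_le_of_injective _ h6
  rw [h1, h2, add_comm]
  exact add_le_add h4 le_rfl

/-- additivity for a free cover -/
theorem len_cover {x s : R} (hp : Par R x s) (hG : TotRefl R G) {n : ℕ}
    (f : (Fin n → R) →ₗ[R] G) (hf : Function.Surjective f) :
    Module.length R (LinearMap.ker f ⧸ xM x (LinearMap.ker f)) + Module.length R (G ⧸ xM x G) ≤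
      n * Module.length R (R ⧸ Ideal.span {x}) := by
  have hreg : ∀ g : G, x • g = 0 → g = 0 := by
    intro g hg
    apply hG.refl.1
    rw [map_zero]
    apply LinearMap.ext
    intro φ
    apply hp.reg
    show x * φ g = 0
    rw [← smul_eq_mul, ← map_smul, hg, map_zero]
  let i' : (LinearMap.ker f ⧸ xM x (LinearMap.ker f)) →ₗ[R] ((Fin n → R) ⧸ xM x (Fin n → R)) :=
    Submodule.mapQ _ _ (LinearMap.ker f).subtype (by
      rintro _ ⟨h, rfl⟩
      exact ⟨h, rfl⟩)
  let f' : ((Fin n → R) ⧸ xM x (Fin n → R)) →ₗ[R] (G ⧸ xM x G) :=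
    Submodule.mapQ _ _ f (by
      rintro _ ⟨h, rfl⟩
      exact ⟨f h, by simp⟩)
  have hi : Function.Injective i' := by
    rw [← LinearMap.ker_eq_bot, LinearMap.ker_eq_bot']
    intro z hz
    obtain ⟨v, rfl⟩ := Submodule.Quotient.mk_surjective _ z
    have h1 : (Submodule.Quotient.mk (v : Fin n → R) : (Fin n → R) ⧸ xM x (Fin n → R)) = 0 := hz
    rw [Submodule.Quotient.mk_eq_zero, mem_xM] at h1
    obtain ⟨w, hw⟩ := h1
    have hw0 : f w = 0 := by
      apply hreg
      rw [← map_smul, hw]
      exact v.2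
    rw [Submodule.Quotient.mk_eq_zero, mem_xM]
    exact ⟨⟨w, hw0⟩, Subtype.ext hw⟩
  have hs : Function.Surjective f' := by
    intro z
    obtain ⟨g, rfl⟩ := Submodule.Quotient.mk_surjective _ z
    obtain ⟨v, rfl⟩ := hf g
    exact ⟨Submodule.Quotient.mk v, rfl⟩
  have hex : Function.Exact i' f' := by
    intro z
    obtain ⟨v, rfl⟩ := Submodule.Quotient.mk_surjective _ z
    constructor
    · intro h
      have h1 : (Submodule.Quotient.mk (f v) : G ⧸ xM x G) = 0 := h
      rw [Submodule.Quotient.mk_eq_zero, mem_xM] at h1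
      obtain ⟨g, hg⟩ := h1
      obtain ⟨w, rfl⟩ := hf g
      refine ⟨Submodule.Quotient.mk ⟨v - x • w, ?_⟩, ?_⟩
      · rw [LinearMap.mem_ker, map_sub, map_smul, hg, sub_self]
      · show (Submodule.Quotient.mk (v - x • w) : (Fin n → R) ⧸ xM x (Fin n → R)) = _
        rw [Submodule.Quotient.eq, mem_xM]
        exact ⟨-w, by simp⟩
    · rintro ⟨y, hy⟩
      obtain ⟨w, rfl⟩ := Submodule.Quotient.mk_surjective _ y
      rw [← hy]
      show (Submodule.Quotient.mk (f w) : G ⧸ xM x G) = 0
      rw [LinearMap.mem_ker.1 w.2]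
      rfl
  have h1 := Module.length_eq_add_of_exact i' f' hi hs hex
  rw [← h1]
  -- `R^n / x R^n` embeds into `(R / x R) ^ n`
  let g : ((Fin n → R) ⧸ xM x (Fin n → R)) →ₗ[R] (Fin n → (R ⧸ Ideal.span {x})) :=
    Submodule.liftQ _ (LinearMap.pi fun i => (Submodule.mkQ (Ideal.span {x})) ∘ₗ
      LinearMap.proj i) (by
      rintro _ ⟨h, rfl⟩
      rw [LinearMap.mem_ker]
      funext i
      show Submodule.mkQ (Ideal.span {x}) (x * h i) = 0
      rw [Submodule.mkQ_apply, Submodule.Quotient.mk_eq_zero, Ideal.mem_span_singleton]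
      exact dvd_mul_right _ _)
  have hg : Function.Injective g := by
    rw [← LinearMap.ker_eq_bot, LinearMap.ker_eq_bot']
    intro z hz
    obtain ⟨v, rfl⟩ := Submodule.Quotient.mk_surjective _ z
    have h2 : ∀ i, ∃ c, v i = x * c := by
      intro i
      have h3 : Submodule.mkQ (Ideal.span {x}) (v i) = 0 := congrFun hz i
      rw [Submodule.mkQ_apply, Submodule.Quotient.mk_eq_zero, Ideal.mem_span_singleton] at h3
      exact h3
    choose w hw using h2
    rw [Submodule.Quotient.mk_eq_zero, mem_xM]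
    exact ⟨w, funext fun i => (hw i).symm⟩
  refine (Module.length_le_of_injective g hg).trans (le_of_eq ?_)
  rw [Module.length_pi]
  simp

/-- **The length bound** -/
theorem length_bound [IsNoetherianRing R] {x s : R} (hp : Par R x s)
    (hR : ¬ ∀ i : ℕ, 2 ≤ i → EV R (ResidueField R) R i) (hG : IsG R G) :
    2 * Module.length R (soc x) + 2 ≤ Module.length R (R ⧸ Ideal.span {x}) := by
  classical
  have hex : ∃ n, ∃ (G : Type u) (_ : AddCommGroup G) (_ : Module R G), IsG R G ∧ IsMu R G n := by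
    have := hG.tr.fin
    obtain ⟨n, hn⟩ := exists_isMu R G
    exact ⟨n, G, _, _, hG, hn⟩
  obtain ⟨b, hb⟩ : ∃ b, b = Nat.find hex := ⟨_, rfl⟩
  obtain ⟨G', _, _, hG', hbG'⟩ := hb ▸ Nat.find_spec hex
  have hmin : ∀ (n : ℕ) (G : Type u) [AddCommGroup G] [Module R G], IsG R G → IsMu R G n →
      b ≤ n := by
    intro n G _ _ h1 h2
    rw [hb]
    exact Nat.find_min' hex ⟨G, _, _, h1, h2⟩
  have hfin := hG'.tr.fin
  have hnt := hG'.nt
  have hb0 : 0 < b := hbG'.pos
  obtain ⟨f, hf, hfm⟩ := hbG'.exists_cover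
  have hK : IsG R (LinearMap.ker f) := hG'.ker hb0 f hf hfm
  have hKfin := hK.tr.fin
  have hKd := hK.dual
  have hKdfin := hKd.tr.fin
  have hGd := hG'.dual
  have hGdfin := hGd.tr.fin
  obtain ⟨n1, hn1⟩ := exists_isMu R (LinearMap.ker f)
  obtain ⟨n2, hn2⟩ := exists_isMu R (Module.Dual R (LinearMap.ker f))
  obtain ⟨n3, hn3⟩ := exists_isMu R (Module.Dual R G')
  have e1 := len_ge hp hR hK.tr hn1 hn2
  have e2 := len_ge hp hR hG'.tr hbG' hn3
  have e3 := len_cover hp hG'.tr f hf
  have m1 := hmin n1 _ hK hn1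
  have m2 := hmin n2 _ hKd hn2
  have m3 := hmin n3 _ hGd hn3
  rcases eq_or_ne (Module.length R (R ⧸ Ideal.span {x})) ⊤ with htop | htop
  · rw [htop]; exact le_top
  · obtain ⟨L, hL⟩ := ENat.ne_top_iff_exists.1 htop
    have hS : Module.length R (soc x) ≤ Module.length R (R ⧸ Ideal.span {x}) :=
      Module.length_le_of_injective (soc x).subtype Subtype.val_injective
    obtain ⟨r, hr⟩ := ENat.ne_top_iff_exists.1 (ne_top_of_le_ne_top htop hS)
    have e4 := (add_le_add e1 e2).trans e3
    rw [← hL, ← hr] at e4 ⊢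
    have e5 : n1 + n2 * r + (b + n3 * r) ≤ b * L := by exact_mod_cast e4
    have e6 : b * (2 * r + 2) ≤ b * L := by nlinarith
    have e7 : 2 * r + 2 ≤ L := Nat.le_of_mul_le_mul_left e6 hb0
    exact_mod_cast e7

end Run7.h988
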