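import Pool.Agent.Run7.h988.Reg

/-!
# Totally reflexive modules over rings of small multiplicity
-/

set_option autoImplicit false
set_option linter.unusedSectionVars false

open IsLocalRing CategoryTheory

universe u

namespace Run7.h988

section retract

variable {R : Type u} [CommRing R] {A B N : Type u} [AddCommGroup A] [Module R A]
  [AddCommGroup B] [Module R B] [AddCommGroup N] [Module R N]

theorem ev_retract (a : A →ₗ[R] B) (p : B →ₗ[R] A) (h : p ∘ₗ a = LinearMap.id) (i : ℕ)
    (hB : EV R B N i) : EV R A N i := by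
  refine subsingleton_of_forall_eq 0 fun x => ?_
  have h0 : ModuleCat.ofHom a ≫ ModuleCat.ofHom p = 𝟙 (ModuleCat.of R A) := by
    rw [← ModuleCat.ofHom_comp, h]
    rfl
  have h1 : (Abelian.Ext.mk₀ (ModuleCat.ofHom p)).comp x (zero_add i) = 0 :=
    @Subsingleton.elim _ hB _ _
  have h2 : (Abelian.Ext.mk₀ (ModuleCat.ofHom a)).comp
      ((Abelian.Ext.mk₀ (ModuleCat.ofHom p)).comp x (zero_add i)) (zero_add i) = x := by
    rw [Abelian.Ext.mk₀_comp_mk₀_assoc, h0]
    simp
  rw [← h2, h1]
  simp

end retract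

variable {R : Type u} [CommRing R] [IsLocalRing R] {G : Type u} [AddCommGroup G] [Module R G]

/-- `n` is the minimal number of generators of `G` -/
def IsMu (R : Type u) [CommRing R] [IsLocalRing R] (G : Type u) [AddCommGroup G] [Module R G]
    (n : ℕ) : Prop :=
  ∃ π : G →ₗ[R] (Fin n → ResidueField R), Function.Surjective π ∧
    LinearMap.ker π = maximalIdeal R • ⊤

instance instModV (R : Type u) [CommRing R] [IsLocalRing R] (G : Type u) [AddCommGroup G]
    [Module R G] : Module (ResidueField R) (G ⧸ (maximalIdeal R • ⊤ : Submodule R G)) :=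
  inferInstanceAs (Module (R ⧸ maximalIdeal R) (G ⧸ (maximalIdeal R • ⊤ : Submodule R G)))

instance instTowV (R : Type u) [CommRing R] [IsLocalRing R] (G : Type u) [AddCommGroup G]
    [Module R G] :
    IsScalarTower R (ResidueField R) (G ⧸ (maximalIdeal R • ⊤ : Submodule R G)) :=
  inferInstanceAs (IsScalarTower R (R ⧸ maximalIdeal R)
    (G ⧸ (maximalIdeal R • ⊤ : Submodule R G)))

theorem exists_isMu (R : Type u) [CommRing R] [IsLocalRing R] (G : Type u) [AddCommGroup G]
    [Module R G] [Module.Finite R G] : ∃ n, IsMu R G n := by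
  have hfin : Module.Finite (ResidueField R) (G ⧸ (maximalIdeal R • ⊤ : Submodule R G)) :=
    Module.Finite.of_restrictScalars_finite R _ _
  let e := (Module.finBasis (ResidueField R)
    (G ⧸ (maximalIdeal R • ⊤ : Submodule R G))).equivFun
  refine ⟨_, (e.restrictScalars R).toLinearMap ∘ₗ Submodule.mkQ _, ?_, ?_⟩
  · exact e.surjective.comp (Submodule.mkQ_surjective _)
  · rw [LinearMap.ker_comp, LinearEquiv.ker, Submodule.comap_bot, Submodule.ker_mkQ]

theorem IsMu.pos [Module.Finite R G] [Nontrivial G] {n : ℕ} (h : IsMu R G n) : 0 < n := by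
  rcases Nat.eq_zero_or_pos n with h0 | h0
  · exfalso
    subst h0
    obtain ⟨π, _, hπ⟩ := h
    have h1 : LinearMap.ker π = ⊤ := by
      rw [LinearMap.ker_eq_top]
      apply LinearMap.ext
      intro g
      exact Subsingleton.elim _ _
    rw [h1] at hπ
    have h2 : (⊤ : Submodule R G) = ⊥ :=
      Submodule.eq_bot_of_le_smul_of_le_jacobson_bot (maximalIdeal R) ⊤ Module.Finite.fg_top
        (le_of_eq hπ) (le_of_eq (jacobson_eq_maximalIdeal ⊥ bot_ne_top).symm)
    obtain ⟨g, hg⟩ := exists_ne (0 : G)
    apply hg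
    have h3 : g ∈ (⊤ : Submodule R G) := Submodule.mem_top
    rw [h2] at h3
    exact h3
  · exact h0

/-- minimal presentations -/
theorem IsMu.exists_cover [Module.Finite R G] {n : ℕ} (h : IsMu R G n) :
    ∃ f : (Fin n → R) →ₗ[R] G, Function.Surjective f ∧
      ∀ v, f v = 0 → ∀ i, v i ∈ maximalIdeal R := by
  obtain ⟨π, hs, hk⟩ := h
  choose g hg using fun i : Fin n => hs (Pi.single i 1)
  let f : (Fin n → R) →ₗ[R] G := Fintype.linearCombination R g
  have hf : ∀ v, π (f v) = fun i => residue R (v i) := by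
    intro v
    show π (∑ i, v i • g i) = _
    rw [map_sum]
    funext j
    rw [Finset.sum_apply, Finset.sum_eq_single j]
    · rw [map_smul, hg, Pi.smul_apply, Pi.single_eq_same, Algebra.smul_def, mul_one]
      rfl
    · intro i _ hij
      rw [map_smul, hg, Pi.smul_apply, Pi.single_eq_of_ne (Ne.symm hij), smul_zero]
    · intro h
      exact absurd (Finset.mem_univ _) h
  refine ⟨f, ?_, ?_⟩
  · rw [← LinearMap.range_eq_top]
    have h1 : (⊤ : Submodule R G) ≤ LinearMap.range f ⊔ maximalIdeal R • ⊤ := by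
      intro y _
      obtain ⟨r, hr⟩ : ∃ r : Fin n → R, ∀ i, residue R (r i) = π y i := by
        choose r hr using fun i => residue_surjective (π y i)
        exact ⟨r, hr⟩
      have h2 : y - f r ∈ LinearMap.ker π := by
        rw [LinearMap.mem_ker, map_sub, hf, sub_eq_zero]
        funext i
        exact (hr i).symm
      rw [hk] at h2
      have h3 := Submodule.add_mem_sup (show f r ∈ LinearMap.range f from ⟨r, rfl⟩) h2
      rwa [add_sub_cancel] at h3
    have h2 := Submodule.le_of_le_smul_of_le_jacobson_bot (Module.Finite.fg_top)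
      (le_of_eq (jacobson_eq_maximalIdeal ⊥ bot_ne_top).symm) h1
    exact top_le_iff.1 h2
  · intro v hv i
    rw [← residue_eq_zero_iff]
    have h1 := congrFun (hf v) i
    rw [hv, map_zero] at h1
    exact h1.symm

/-- the kernel of a free cover of a totally reflexive module is totally reflexive -/
theorem totRefl_ker [IsNoetherianRing R] {n : ℕ} (f : (Fin n → R) →ₗ[R] G)
    (hf : Function.Surjective f) (hG : TotRefl R G) : TotRefl R (LinearMap.ker f) := by
  have hex : Function.Exact (LinearMap.ker f).subtype f := by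
    intro y
    simp
  have hinj : Function.Injective (LinearMap.ker f).subtype := Subtype.val_injective
  have hfd : Function.Injective f.dualMap := LinearMap.dualMap_injective_of_surjective hf
  have hsurj : Function.Surjective (LinearMap.ker f).subtype.dualMap := by
    intro φ
    obtain ⟨ψ, hψ⟩ := extend_of_ev _ f hex hinj hf (hG.ext 1 le_rfl) φ
    exact ⟨ψ, hψ⟩
  have hexd : Function.Exact f.dualMap (LinearMap.ker f).subtype.dualMap := by
    intro ψ
    constructor
    · intro h
      have h1 : LinearMap.ker f ≤ LinearMap.ker ψ := by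
        intro z hz
        exact LinearMap.congr_fun h ⟨z, hz⟩
      let e := f.quotKerEquivOfSurjective hf
      refine ⟨((LinearMap.ker f).liftQ ψ h1) ∘ₗ (e.symm : G →ₗ[R] _), ?_⟩
      apply LinearMap.ext
      intro z
      have h2 : e.symm (f z) = Submodule.Quotient.mk z := by
        rw [LinearEquiv.symm_apply_eq]
        rfl
      show ((LinearMap.ker f).liftQ ψ h1) (e.symm (f z)) = ψ z
      rw [h2]
      rfl
    · rintro ⟨χ, rfl⟩
      apply LinearMap.ext
      intro a
      show χ (f a) = 0
      rw [LinearMap.mem_ker.1 a.2, map_zero]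
  have hFtl : Function.Bijective (Module.Dual.eval R (Fin n → R)) :=
    Module.bijective_dual_eval R (Fin n → R)
  refine ⟨inferInstance, ⟨torsionless_of_inj _ hinj hFtl.1, ?_⟩, ?_, ?_⟩
  · intro Θ
    obtain ⟨v, hv⟩ := hFtl.2 (Θ ∘ₗ (LinearMap.ker f).subtype.dualMap)
    have h1 : f v = 0 := by
      apply hG.refl.1
      rw [map_zero]
      apply LinearMap.ext
      intro φ
      have h2 := LinearMap.congr_fun hv (f.dualMap φ)
      have h3 : (LinearMap.ker f).subtype.dualMap (f.dualMap φ) = 0 :=
        (hexd (f.dualMap φ)).2 ⟨φ, rfl⟩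
      have h4 : Θ ((LinearMap.ker f).subtype.dualMap (f.dualMap φ)) = 0 := by
        rw [h3, map_zero]
      exact h2.trans h4
    refine ⟨⟨v, h1⟩, ?_⟩
    apply LinearMap.ext
    intro φ
    obtain ⟨ψ, rfl⟩ := hsurj φ
    exact LinearMap.congr_fun hv ψ
  · intro i hi
    exact ev_first _ f hex hinj hf i (ev_proj i hi) (hG.ext (i + 1) (by omega))
  · intro i hi
    obtain ⟨i, rfl⟩ : ∃ j, i = j + 1 := ⟨i - 1, by omega⟩
    rcases i with _ | i
    · refine ev_one_of_extend f.dualMap _ hexd hfd hsurj (ev_proj 1 le_rfl) ?_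
      intro θ
      obtain ⟨g, rfl⟩ := hG.refl.2 θ
      obtain ⟨v, rfl⟩ := hf g
      exact ⟨Module.Dual.eval R _ v, rfl⟩
    · exact ev_third f.dualMap _ hexd hfd hsurj (i + 1) (hG.extDual _ (by omega))
        (ev_proj _ (by omega))

/-- the class of nonzero totally reflexive modules without free direct summands -/
structure IsG (R : Type u) [CommRing R] [IsLocalRing R] (G : Type u) [AddCommGroup G]
    [Module R G] : Prop where
  tr : TotRefl R G
  nt : Nontrivial G
  nf : ∀ (φ : Module.Dual R G) (g : G), φ g ∈ maximalIdeal R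

theorem IsG.dual [IsNoetherianRing R] (h : IsG R G) : IsG R (Module.Dual R G) := by
  refine ⟨h.tr.dual, ?_, ?_⟩
  · by_contra hcon
    rw [not_nontrivial_iff_subsingleton] at hcon
    obtain ⟨a, b, hab⟩ := h.nt
    apply hab
    apply h.tr.refl.1
    apply LinearMap.ext
    intro φ
    rw [Subsingleton.elim φ 0]
    simp
  · intro Θ φ
    obtain ⟨g, rfl⟩ := h.tr.refl.2 Θ
    exact h.nf φ g

theorem IsG.ker [IsNoetherianRing R] (h : IsG R G) {n : ℕ} (hn : 0 < n)
    (f : (Fin n → R) →ₗ[R] G) (hf : Function.Surjective f)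
    (hm : ∀ v, f v = 0 → ∀ i, v i ∈ maximalIdeal R) : IsG R (LinearMap.ker f) := by
  refine ⟨totRefl_ker f hf h.tr, ?_, ?_⟩
  · by_contra hcon
    rw [not_nontrivial_iff_subsingleton] at hcon
    have hinj : Function.Injective f := by
      rw [← LinearMap.ker_eq_bot]
      exact (Submodule.subsingleton_iff_eq_bot).1 hcon
    let e := LinearEquiv.ofBijective f ⟨hinj, hf⟩
    have h1 := h.nf ((LinearMap.proj (R := R) (φ := fun _ : Fin n => R) ⟨0, hn⟩) ∘ₗ
      e.symm.toLinearMap) (e (Pi.single ⟨0, hn⟩ 1))
    rw [LinearMap.comp_apply, LinearEquiv.coe_coe, LinearEquiv.symm_apply_apply,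
      LinearMap.proj_apply, Pi.single_eq_same] at h1
    exact (mem_maximalIdeal _).1 h1 isUnit_one
  · intro φ v
    have hex : Function.Exact (LinearMap.ker f).subtype f := by
      intro y
      simp
    obtain ⟨ψ, hψ⟩ := extend_of_ev _ f hex Subtype.val_injective hf (h.tr.ext 1 le_rfl) φ
    have h1 : φ v = ψ (v : Fin n → R) := (LinearMap.congr_fun hψ v).symm
    have h2 : ψ (v : Fin n → R) = ∑ i, (v : Fin n → R) i * ψ (Pi.single i 1) := by
      conv_lhs => rw [pi_eq_sum_univ' (v : Fin n → R)]
      rw [map_sum]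
      apply Finset.sum_congr rfl
      intro i _
      rw [map_smul, smul_eq_mul]
    rw [h1, h2]
    apply Ideal.sum_mem
    intro i _
    exact Ideal.mul_mem_right _ _ (hm v v.2 i)

end Run7.h988
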