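import Pool.Agent.Run7.h988.Reg

/-!
# Quasi-homogeneous rings of dimension one
-/

set_option autoImplicit false
set_option linter.unusedSectionVars false

open IsLocalRing CategoryTheory Polynomial

universe u

namespace Run7.h988

variable {R : Type u} [CommRing R] {k : Type*} [Field k] [CharZero k] [Algebra k R]

/-- `q(E) y = q(λ) y` for `E y = λ y` -/
theorem aeval_eigen (T : Module.End k R) {y : R} {c : k} (h : T y = c • y) (q : k[X]) :
    aeval T q y = q.eval c • y := by
  induction q using Polynomial.induction_on' with
  | add p q hp hq =>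
    rw [map_add, LinearMap.add_apply, hp, hq, eval_add, add_smul]
  | monomial n a =>
    rw [aeval_monomial, eval_monomial, Module.End.mul_apply, Module.algebraMap_end_apply,
      mul_smul]
    congr 1
    induction n with
    | zero => simp
    | succ n ih =>
      rw [pow_succ, Module.End.mul_apply, h, map_smul, ih, smul_smul, pow_succ, mul_comm]

theorem aeval_mul_apply (T : Module.End k R) (p q : k[X]) (y : R) :
    aeval T (p * q) y = aeval T p (aeval T q y) := by
  rw [map_mul (aeval T)]
  rfl

variable [IsLocalRing R]

theorem exists_poly [Module.Finite k (ResidueField R)] (f : R) :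
    ∃ p : k[X], aeval f p ∈ maximalIdeal R ∧ IsUnit (aeval f (derivative p)) := by
  let p : Polynomial k := minpoly k (residue R f)
  have hint : IsIntegral k (residue R f) := Algebra.IsIntegral.isIntegral _
  have hsep : p.Separable := (minpoly.irreducible hint).separable
  refine ⟨p, ?_, ?_⟩
  · rw [← residue_eq_zero_iff]
    have h1 : residue R (Polynomial.aeval f p) = Polynomial.aeval (residue R f) p := by
      have := Polynomial.aeval_algebraMap_apply (ResidueField R) f p
      exact this.symm
    rw [h1]
    exact minpoly.aeval k _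
  · rw [← residue_ne_zero_iff_isUnit]
    have h1 : residue R (Polynomial.aeval f (Polynomial.derivative p)) =
        Polynomial.aeval (residue R f) (Polynomial.derivative p) := by
      have := Polynomial.aeval_algebraMap_apply (ResidueField R) f (Polynomial.derivative p)
      exact this.symm
    rw [h1]
    exact hsep.aeval_derivative_ne_zero (minpoly.aeval k _)

/-- the data of a quasi-homogeneous local ring: a derivation `E` and generators `x i` of the
maximal ideal with `E (x i) = w i * x i`, with positive integral weights `w i` -/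
structure QH (E : Derivation k R R) {ι : Type*} (x : ι → R) (w : ι → ℕ) : Prop where
  span : Ideal.span (Set.range x) = maximalIdeal R
  pos : ∀ i, 0 < w i
  eig : ∀ i, E (x i) = (w i : R) * x i

variable {E : Derivation k R R} {ι : Type*} {x : ι → R} {w : ι → ℕ}

theorem QH.mem (h : QH E x w) (i : ι) : x i ∈ maximalIdeal R := by
  rw [← h.span]
  exact Ideal.subset_span ⟨i, rfl⟩

theorem QH.map_max (h : QH E x w) {y : R} (hy : y ∈ maximalIdeal R) : E y ∈ maximalIdeal R := by
  rw [← h.span] at hy
  have hy' : y ∈ Submodule.span R (Set.range x) := hy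
  induction hy' using Submodule.span_induction with
  | mem y hy1 =>
    obtain ⟨i, rfl⟩ := hy1
    rw [h.eig]
    exact Ideal.mul_mem_left _ _ (h.mem i)
  | zero => rw [map_zero]; exact Ideal.zero_mem _
  | add y z hy1 hz1 ih1 ih2 =>
    rw [map_add]
    exact Ideal.add_mem _ (ih1 hy1) (ih2 hz1)
  | smul r y hy1 ih =>
    rw [smul_eq_mul, Derivation.leibniz]
    have hym : y ∈ maximalIdeal R := by rw [← h.span]; exact hy1
    exact Ideal.add_mem _ (Ideal.mul_mem_left _ _ (ih hy1)) (Ideal.mul_mem_right _ _ hym)

theorem QH.map_mem [Module.Finite k (ResidueField R)] (h : QH E x w) (y : R) :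
    E y ∈ maximalIdeal R := by
  obtain ⟨p, hp1, v, hv⟩ := exists_poly (k := k) y
  have h1 := h.map_max hp1
  rw [Derivation.map_aeval, smul_eq_mul, ← hv] at h1
  exact (Ideal.unit_mul_mem_iff_mem _ v.isUnit).1 h1

theorem map_pow_mem (hE : ∀ y ∈ maximalIdeal R, E y ∈ maximalIdeal R) (s : ℕ) {y : R}
    (hy : y ∈ (maximalIdeal R) ^ s) : E y ∈ (maximalIdeal R) ^ s := by
  induction s generalizing y with
  | zero => simp
  | succ s ih =>
    rw [pow_succ'] at hy ⊢
    refine Submodule.mul_induction_on hy ?_ ?_
    · intro a ha b hb
      rw [Derivation.leibniz]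
      refine Ideal.add_mem _ (Ideal.mul_mem_mul ha (ih hb)) ?_
      show b * E a ∈ _
      rw [mul_comm b]
      exact Ideal.mul_mem_mul (hE a ha) hb
    · intro a b ha hb
      rw [map_add]
      exact Ideal.add_mem _ ha hb

theorem aeval_pow_mem (hE : ∀ y ∈ maximalIdeal R, E y ∈ maximalIdeal R) (s : ℕ) {y : R}
    (hy : y ∈ (maximalIdeal R) ^ s) (q : k[X]) :
    aeval (E : Module.End k R) q y ∈ (maximalIdeal R) ^ s := by
  induction q using Polynomial.induction_on' with
  | add p q hp hq =>
    rw [map_add, LinearMap.add_apply]
    exact Ideal.add_mem _ hp hq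
  | monomial n a =>
    rw [aeval_monomial, Module.End.mul_apply, Module.algebraMap_end_apply, Algebra.smul_def]
    apply Ideal.mul_mem_left
    induction n with
    | zero => simpa using hy
    | succ n ih =>
      rw [pow_succ', Module.End.mul_apply]
      exact map_pow_mem hE s ih

/-- on `m ^ s / m ^ (s + 1)` the operator `E` is annihilated by a polynomial whose roots are at
least `s` -/
theorem QH.exists_poly_pow [Module.Finite k (ResidueField R)] (h : QH E x w) (s : ℕ) {y : R}
    (hy : y ∈ (maximalIdeal R) ^ s) :
    ∃ q : k[X], (∀ l : ℤ, l < s → q.eval (l : k) ≠ 0) ∧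
      aeval (E : Module.End k R) q y ∈ (maximalIdeal R) ^ (s + 1) := by
  induction s generalizing y with
  | zero =>
    refine ⟨X, ?_, ?_⟩
    · intro l hl
      rw [eval_X]
      exact Int.cast_ne_zero.2 (by simpa using hl.ne)
    · rw [aeval_X, zero_add, pow_one]
      exact h.map_mem y
  | succ s ih =>
    have hspan : (maximalIdeal R) ^ (s + 1) = Ideal.span (Set.range x) * (maximalIdeal R) ^ s := by
      rw [h.span, pow_succ']
    rw [hspan] at hy
    refine Submodule.mul_induction_on hy ?_ ?_
    · intro a ha b hb
      have ha' : a ∈ Submodule.span R (Set.range x) := ha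
      clear ha hy
      induction ha' using Submodule.span_induction generalizing b with
      | mem a ha1 =>
        obtain ⟨i, rfl⟩ := ha1
        obtain ⟨q, hq1, hq2⟩ := ih hb
        refine ⟨q.comp (X - C ((w i : ℕ) : k)), ?_, ?_⟩
        · intro l hl
          rw [eval_comp, eval_sub, eval_X, eval_C]
          have h1 := hq1 (l - w i) (by
            have := h.pos i
            push_cast at hl
            omega)
          push_cast at h1
          exact h1
        · have key : ∀ (p : k[X]) (b : R),
              aeval (E : Module.End k R) (p.comp (X - C ((w i : ℕ) : k))) (x i * b) =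
                x i * aeval (E : Module.End k R) p b := by
            have key0 : ∀ b : R, aeval (E : Module.End k R) (X - C ((w i : ℕ) : k)) (x i * b) =
                x i * E b := by
              intro b
              rw [map_sub, aeval_X, aeval_C, LinearMap.sub_apply, Module.algebraMap_end_apply]
              show E (x i * b) - ((w i : ℕ) : k) • (x i * b) = _
              rw [Derivation.leibniz, h.eig]
              simp only [smul_eq_mul]
              rw [Algebra.smul_def, map_natCast]
              ring
            intro p b
            induction p using Polynomial.induction_on' generalizing b with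
            | add p q hp hq =>
              rw [add_comp, map_add, map_add, LinearMap.add_apply, LinearMap.add_apply, hp, hq,
                mul_add]
            | monomial n a =>
              rw [monomial_comp, aeval_mul_apply, aeval_C, aeval_monomial,
                Module.End.mul_apply, Module.algebraMap_end_apply,
                Module.algebraMap_end_apply, mul_smul_comm]
              congr 1
              induction n generalizing b with
              | zero => simp
              | succ n ihn =>
                rw [pow_succ, aeval_mul_apply, key0, ihn, pow_succ, Module.End.mul_apply]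
                rfl
          rw [key, pow_succ']
          exact Ideal.mul_mem_mul (h.mem i) hq2
      | zero =>
        refine ⟨1, ?_, ?_⟩
        · intro l _
          simp
        · rw [zero_mul, map_zero]
          exact Ideal.zero_mem _
      | add a c _ _ ih1 ih2 =>
        obtain ⟨q1, hq1, hq1'⟩ := ih1 b hb
        obtain ⟨q2, hq2, hq2'⟩ := ih2 b hb
        refine ⟨q1 * q2, ?_, ?_⟩
        · intro l hl
          rw [eval_mul]
          exact mul_ne_zero (hq1 l hl) (hq2 l hl)
        · rw [add_mul, map_add]
          refine Ideal.add_mem _ ?_ ?_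
          · rw [mul_comm q1, aeval_mul_apply]
            exact aeval_pow_mem (fun y hy => h.map_mem y) _ hq1' q2
          · rw [aeval_mul_apply]
            exact aeval_pow_mem (fun y hy => h.map_mem y) _ hq2' q1
      | smul r a _ ih1 =>
        rw [smul_mul_assoc, ← mul_smul_comm]
        exact ih1 (r • b) (Ideal.mul_mem_left _ _ hb)
    · intro a b ha hb
      obtain ⟨q1, hq1, hq1'⟩ := ha
      obtain ⟨q2, hq2, hq2'⟩ := hb
      refine ⟨q1 * q2, ?_, ?_⟩
      · intro l hl
        rw [eval_mul]
        exact mul_ne_zero (hq1 l hl) (hq2 l hl)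
      · rw [map_add]
        refine Ideal.add_mem _ ?_ ?_
        · rw [mul_comm q1, aeval_mul_apply]
          exact aeval_pow_mem (fun y hy => h.map_mem y) _ hq1' q2
        · rw [aeval_mul_apply]
          exact aeval_pow_mem (fun y hy => h.map_mem y) _ hq2' q1

/-- elements of large order annihilated by a polynomial in `E` with small roots are zero -/
theorem QH.eq_zero [IsNoetherianRing R] [Module.Finite k (ResidueField R)] (h : QH E x w)
    (S : Finset ℕ) (M : ℕ) (hS : ∀ j ∈ S, j < M) {y : R} (hy : y ∈ (maximalIdeal R) ^ M)
    (hq : aeval (E : Module.End k R) (∏ j ∈ S, (X - C ((j : ℕ) : k))) y = 0) : y = 0 := by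
  have h1 : ∀ t, y ∈ (maximalIdeal R) ^ (M + t) := by
    intro t
    induction t with
    | zero => exact hy
    | succ t ih =>
      obtain ⟨q2, h2, h3⟩ := h.exists_poly_pow (M + t) ih
      have hcop : IsCoprime (∏ j ∈ S, (X - C ((j : ℕ) : k))) q2 := by
        apply IsCoprime.prod_left
        intro j hj
        rw [(Polynomial.irreducible_X_sub_C _).coprime_iff_not_dvd]
        rw [Polynomial.dvd_iff_isRoot]
        have h4 := h2 (j : ℤ) (by
          have := hS j hj
          push_cast
          omega)
        intro h5
        apply h4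
        have h6 : q2.eval ((j : ℕ) : k) = 0 := h5
        exact_mod_cast h6
      obtain ⟨a, b, hab⟩ := hcop
      have h4 : y = aeval (E : Module.End k R) b (aeval (E : Module.End k R) q2 y) := by
        have h5 : aeval (E : Module.End k R) (a * (∏ j ∈ S, (X - C ((j : ℕ) : k))) + b * q2) y =
            y := by
          rw [hab, map_one]
          rfl
        rw [map_add, map_mul, map_mul, LinearMap.add_apply, Module.End.mul_apply,
          Module.End.mul_apply, hq, map_zero, zero_add] at h5
        exact h5.symm
      rw [h4]
      exact aeval_pow_mem (fun y hy => h.map_mem y) _ h3 b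
  have h2 : y ∈ (⨅ i : ℕ, (maximalIdeal R) ^ i : Ideal R) := by
    rw [Ideal.mem_iInf]
    intro i
    exact Ideal.pow_le_pow_right (by omega) (h1 i)
  rw [Ideal.iInf_pow_eq_bot_of_isLocalRing _ (Ideal.IsPrime.ne_top inferInstance)] at h2
  exact h2

/-- two homogeneous elements of the same degree -/
theorem QH.pair [IsNoetherianRing R] [IsReduced R] [Module.Finite k (ResidueField R)]
    (h : QH E x w) (hdim : ringKrullDim R = 1) (D : Derivation k R R) {a b : R} {N : ℕ}
    (ha : E a = (N : R) * a) (hb : E b = (N : R) * b) :
    D a * E b = D b * E a := by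
  obtain ⟨z, hzm, hz⟩ := exists_regular hdim
  set C' := Module.finrank k (R ⧸ Ideal.span {z}) with hC
  have hf0 : Module.Finite k (R ⧸ Ideal.span {z}) := finite_quot hdim hz
  have hnt : Nontrivial (R ⧸ Ideal.span {z}) := by
    apply Ideal.Quotient.nontrivial_iff.2
    rw [Ne, Ideal.span_singleton_eq_top]
    exact (mem_maximalIdeal z).1 hzm
  have hC0 : 0 < C' := Module.finrank_pos
  set d := (2 * N + 1) * C' with hd
  have hd0 : 0 < d := by positivity
  obtain ⟨P, hP, hm, hdvd⟩ := exists_rel (k := k) hdim hz a b (N * (2 * d) + 1) d (by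
    rw [← hC]
    calc (N * (2 * d) + 1) * C' = 2 * N * C' * d + C' := by ring
      _ ≤ 2 * N * C' * d + C' * d := by nlinarith
      _ = d * ((2 * N + 1) * C') := by ring
      _ = d * d := by rw [← hd]
      _ < (d + 1) * (d + 1) := by nlinarith)
  have hP0 : MvPolynomial.aeval ![a, b] P = 0 := by
    apply h.eq_zero ((Finset.range (2 * d + 1)).image (fun j => N * j)) (N * (2 * d) + 1)
    · intro j hj
      obtain ⟨i, hi, rfl⟩ := Finset.mem_image.1 hj
      have := Finset.mem_range.1 hi
      have : N * i ≤ N * (2 * d) := Nat.mul_le_mul_left _ (by omega)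
      omega
    · obtain ⟨c, hc⟩ := hdvd
      rw [hc]
      exact Ideal.mul_mem_right _ _ (Ideal.pow_mem_pow hzm _)
    · rw [P.as_sum, map_sum, map_sum]
      apply Finset.sum_eq_zero
      intro m hmP
      have hmon : E (MvPolynomial.aeval ![a, b] (MvPolynomial.monomial m (P.coeff m))) =
          ((N * (m 0 + m 1) : ℕ) : k) •
            MvPolynomial.aeval ![a, b] (MvPolynomial.monomial m (P.coeff m)) := by
        rw [MvPolynomial.aeval_monomial, Finsupp.prod_fintype _ _ (by simp), Fin.prod_univ_two]
        simp only [Matrix.cons_val_zero, Matrix.cons_val_one]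
        have e1 : ∀ (n : ℕ) (c : R), E c = (N : R) * c → E (c ^ n) = ((N * n : ℕ) : R) * c ^ n := by
          intro n c hc
          rw [Derivation.leibniz_pow, hc]
          rcases n with _ | n
          · simp
          · simp only [smul_eq_mul, nsmul_eq_mul, Nat.add_sub_cancel]
            push_cast
            ring
        rw [← Algebra.smul_def, Derivation.map_smul, Derivation.leibniz, e1 _ _ ha, e1 _ _ hb,
          smul_comm]
        congr 1
        simp only [smul_eq_mul]
        rw [Algebra.smul_def, map_natCast]
        push_cast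
        ring
      have h2 := aeval_eigen (E : Module.End k R) hmon
        (∏ j ∈ (Finset.range (2 * d + 1)).image (fun j => N * j), (X - C ((j : ℕ) : k)))
      rw [h2]
      have h3 : eval ((N * (m 0 + m 1) : ℕ) : k)
          (∏ j ∈ (Finset.range (2 * d + 1)).image (fun j => N * j),
            (X - C ((j : ℕ) : k))) = 0 := by
        rw [eval_prod]
        refine Finset.prod_eq_zero (i := N * (m 0 + m 1)) ?_ ?_
        · refine Finset.mem_image.2 ⟨m 0 + m 1, ?_, rfl⟩
          rw [Finset.mem_range]
          have := hm m hmP
          omega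
        · simp
      rw [h3, zero_smul]
  have h4 := descent D E a b 0 (2 * d) P hP hm 0 1 (by
    rw [hP0, zero_mul]
    exact dvd_zero _)
  rw [pow_one, zero_dvd_iff] at h4
  exact sub_eq_zero.1 (pow_eq_zero_iff (by omega) |>.1 h4)

/-- the generators -/
theorem QH.gen [IsNoetherianRing R] [IsReduced R] [Module.Finite k (ResidueField R)]
    (h : QH E x w) (hdim : ringKrullDim R = 1) (D : Derivation k R R) (i j : ι) :
    D (x i) * E (x j) = D (x j) * E (x i) := by
  have e1 : ∀ (n : ℕ) (i : ι), E (x i ^ n) = ((w i * n : ℕ) : R) * x i ^ n := by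
    intro n i
    rw [Derivation.leibniz_pow, h.eig]
    rcases n with _ | n
    · simp
    · simp only [smul_eq_mul, nsmul_eq_mul, Nat.add_sub_cancel]
      push_cast
      ring
  have h1 := h.pair hdim D (a := x i ^ w j) (b := x j ^ w i) (N := w i * w j) (e1 _ _) (by
    rw [mul_comm (w i)]
    exact e1 _ _)
  obtain ⟨p, hp⟩ : ∃ p, w i = p + 1 := ⟨w i - 1, by have := h.pos i; omega⟩
  obtain ⟨q, hq⟩ : ∃ q, w j = q + 1 := ⟨w j - 1, by have := h.pos j; omega⟩
  rw [e1, e1, Derivation.leibniz_pow, Derivation.leibniz_pow] at h1
  simp only [smul_eq_mul, nsmul_eq_mul] at h1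
  set y := D (x i) * E (x j) - D (x j) * E (x i) with hy
  have hunit : ∀ n : ℕ, 0 < n → IsUnit ((n : ℕ) : R) := by
    intro n hn
    rw [← map_natCast (algebraMap k R) n]
    exact (IsUnit.mk0 _ (Nat.cast_ne_zero.2 hn.ne')).map _
  have h2 : x i ^ q * x j ^ p * y = 0 := by
    have hu : IsUnit (((w i * w j : ℕ) : R)) := hunit _ (Nat.mul_pos (h.pos i) (h.pos j))
    apply (hu.mul_right_eq_zero).1
    rw [hy, h.eig, h.eig]
    rw [hp, hq] at h1 ⊢
    simp only [Nat.add_sub_cancel] at h1
    push_cast at h1 ⊢
    linear_combination h1
  have hred : ∀ c : R, c ^ 2 = 0 → c = 0 := fun c hc => pow_eq_zero_iff (two_ne_zero) |>.1 hc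
  have h3 : x i * x j * y = 0 := by
    have : (x i * x j * y) ^ (p + q + 1) = 0 := by
      have e : (x i * x j * y) ^ (p + q + 1) =
          (x i ^ q * x j ^ p * y) * (x i ^ (p + 1) * x j ^ (q + 1) * y ^ (p + q)) := by ring
      rw [e, h2, zero_mul]
    exact pow_eq_zero_iff (Nat.succ_ne_zero _) |>.1 this
  have h4 : ∀ c z : R, c * z = 0 → D c * z = 0 := by
    intro c z hcz
    apply hred
    have h5 : D (c * z) = 0 := by rw [hcz, map_zero]
    rw [Derivation.leibniz] at h5
    simp only [smul_eq_mul] at h5
    linear_combination (D c * z) * h5 - D z * D c * hcz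
  have h5 : D (x j) * (x i * y) = 0 := h4 _ _ (by linear_combination h3)
  have h6 : D (x i) * (x j * y) = 0 := h4 _ _ (by linear_combination h3)
  rw [← sub_eq_zero]
  apply hred
  have h7 : y * y = 0 := by
    have hy' : y = D (x i) * ((w j : R) * x j) - D (x j) * ((w i : R) * x i) := by
      rw [hy, h.eig, h.eig]
    linear_combination y * hy' + (w j : R) * h6 - (w i : R) * h5
  rw [pow_two]
  exact h7

/-- **rank one** for quasi-homogeneous rings -/
theorem QH.rank_one [IsNoetherianRing R] [IsReduced R] [Module.Finite k (ResidueField R)]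
    (h : QH E x w) (hdim : ringKrullDim R = 1) (D : Derivation k R R) (f g : R) :
    D f * E g = D g * E f := by
  let Z : R → R → R := fun f g => D f * E g - D g * E f
  let I : Ideal R := Ideal.span {z | ∃ f g, z = Z f g}
  have hZI : ∀ f g, Z f g ∈ I := fun f g => Ideal.subset_span ⟨f, g, rfl⟩
  -- the first argument in the maximal ideal
  have h1 : ∀ (T : Ideal R) (g : R), (∀ y ∈ maximalIdeal R, Z y g ∈ T) → ∀ f, Z f g ∈ T := by
    intro T g hT f
    obtain ⟨p, hp1, v, hv⟩ := exists_poly (k := k) f
    have h2 := hT _ hp1
    have h3 : Z (aeval f p) g = aeval f (derivative p) * Z f g := by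
      show D _ * E g - D g * E _ = _ * (D f * E g - D g * E f)
      rw [Derivation.map_aeval, Derivation.map_aeval]
      simp only [smul_eq_mul]
      ring
    rw [h3, ← hv] at h2
    exact (Ideal.unit_mul_mem_iff_mem _ v.isUnit).1 h2
  have hswap : ∀ f g, Z f g = - Z g f := by
    intro f g
    show D f * E g - D g * E f = - (D g * E f - D f * E g)
    ring
  -- generators
  have h2 : ∀ y ∈ maximalIdeal R, ∀ g, (∀ i, Z (x i) g ∈ maximalIdeal R * I) →
      Z y g ∈ maximalIdeal R * I := by
    intro y hy g hg
    rw [← h.span] at hy
    have hy' : y ∈ Submodule.span R (Set.range x) := hy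
    clear hy
    induction hy' using Submodule.span_induction with
    | mem y hy1 =>
      obtain ⟨i, rfl⟩ := hy1
      exact hg i
    | zero =>
      have : Z 0 g = 0 := by
        show D 0 * E g - D g * E 0 = 0
        simp
      rw [this]
      exact Ideal.zero_mem _
    | add y z _ _ ih1 ih2 =>
      have : Z (y + z) g = Z y g + Z z g := by
        show D (y + z) * E g - D g * E (y + z) = D y * E g - D g * E y + (D z * E g - D g * E z)
        rw [map_add, map_add]
        ring
      rw [this]
      exact Ideal.add_mem _ ih1 ih2
    | smul r y hy1 ih =>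
      have hym : y ∈ maximalIdeal R := by rw [← h.span]; exact hy1
      have : Z (r • y) g = r * Z y g + y * Z r g := by
        show D (r * y) * E g - D g * E (r * y) = r * (D y * E g - D g * E y) +
          y * (D r * E g - D g * E r)
        rw [Derivation.leibniz, Derivation.leibniz]
        simp only [smul_eq_mul]
        ring
      rw [this]
      exact Ideal.add_mem _ (Ideal.mul_mem_left _ _ ih) (Ideal.mul_mem_mul hym (hZI r g))
  have h3 : ∀ f g, Z f g ∈ maximalIdeal R * I := by
    intro f g
    apply h1
    intro y hy
    apply h2 y hy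
    intro i
    rw [hswap]
    apply (Submodule.neg_mem_iff _).2
    refine h1 _ (x i) ?_ g
    intro z hz
    apply h2 z hz
    intro j
    have : Z (x j) (x i) = 0 := by
      show D (x j) * E (x i) - D (x i) * E (x j) = 0
      rw [h.gen hdim D j i, sub_self]
    rw [this]
    exact Ideal.zero_mem _
  have h4 : I = ⊥ := by
    apply Submodule.eq_bot_of_le_smul_of_le_jacobson_bot (maximalIdeal R) I
      (IsNoetherian.noetherian I)
    · rw [smul_eq_mul]
      apply Ideal.span_le.2
      rintro _ ⟨f, g, rfl⟩
      exact h3 f g
    · exact le_of_eq (jacobson_eq_maximalIdeal ⊥ bot_ne_top).symm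
  have h5 := hZI f g
  rw [h4] at h5
  exact sub_eq_zero.1 h5

/-- **Theorem 1** -/
theorem QH.injDim {R : Type u} [CommRing R] [IsLocalRing R] [IsNoetherianRing R]
    [IsReduced R] {k : Type*} [Field k] [CharZero k] [Algebra k R]
    [Module.Finite k (ResidueField R)] (hdim : ringKrullDim R = 1)
    {E : Derivation k R R} {ι : Type*} {x : ι → R} {w : ι → ℕ} (h : QH E x w) (n : ℕ)
    (hG : GdimLE R n (Derivation k R R)) : HasInjectiveDimensionLE (ModuleCat.of R R) 1 := by
  have hI : ∀ f, E f ∈ maximalIdeal R := h.map_mem
  have hE : Ideal.span (Set.range E) = maximalIdeal R := by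
    apply le_antisymm
    · apply Ideal.span_le.2
      rintro _ ⟨f, rfl⟩
      exact hI f
    · rw [← h.span]
      apply Ideal.span_le.2
      rintro _ ⟨i, rfl⟩
      have hu : IsUnit ((w i : ℕ) : R) := by
        rw [← map_natCast (algebraMap k R) (w i)]
        exact (IsUnit.mk0 _ (Nat.cast_ne_zero.2 (h.pos i).ne')).map _
      obtain ⟨v, hv⟩ := hu
      have h1 : E (x i) ∈ Ideal.span (Set.range E) := Ideal.subset_span ⟨x i, rfl⟩
      rw [h.eig, ← hv] at h1
      exact (Ideal.unit_mul_mem_iff_mem _ v.isUnit).1 h1
  obtain ⟨z, hzm, hz⟩ := exists_regular hdim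
  obtain ⟨s, hp⟩ := exists_par hdim hzm hz
  let e : Module.Dual R (maximalIdeal R) ≃ₗ[R] Derivation k R R :=
    LinearEquiv.ofBijective (dualToDer E (maximalIdeal R) hI)
      (dualToDer_bijective E _ hE hI (fun D f g => h.rank_one hdim D f g) hz hzm)
  have htl : Function.Injective (Module.Dual.eval R (Derivation k R R)) :=
    torsionless_of_inj e.symm.toLinearMap e.symm.injective dual_torsionless
  have h1 : TotRefl R (Derivation k R R) := totRefl_of_gdim hp n _ hG htl
  have h2 : TotRefl R (Module.Dual R (maximalIdeal R)) := h1.congr e.symm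
  have h3 : Function.Injective (Module.Dual.eval R (maximalIdeal R)) := by
    intro a b hab
    apply Subtype.ext
    exact LinearMap.congr_fun hab (maximalIdeal R).subtype
  have h4 : TotRefl R (maximalIdeal R) := totRefl_of_dual hp h3 h2
  exact injDim_of_max h4.ext

end Run7.h988
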