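import Pool.Agent.Run7.h988.Dim1

/-!
# The derivation module has rank one
-/

set_option autoImplicit false
set_option linter.unusedSectionVars false

open IsLocalRing

universe u

namespace Run7.h988

section cond

variable {R : Type u} [CommRing R] [IsNoetherianRing R]

/-- a common denominator of the integral elements -/
theorem exists_cond (hfin : Module.Finite R (integralClosure R (FractionRing R))) :
    ∃ c ∈ nonZeroDivisors R, ∀ (z x : R), x ∈ nonZeroDivisors R → ∀ e : ℕ, 1 ≤ e →
      x ^ e ∣ z ^ e → x ∣ c * z := by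
  classical
  obtain ⟨s, hs⟩ := hfin
  obtain ⟨c, hc⟩ := IsLocalization.exist_integer_multiples_of_finset (nonZeroDivisors R)
    (s.image (fun y : integralClosure R (FractionRing R) => (y : FractionRing R)))
  have h1 : ∀ y : integralClosure R (FractionRing R),
      ∃ r : R, algebraMap R (FractionRing R) r = (c : R) • (y : FractionRing R) := by
    intro y
    have hy : y ∈ Submodule.span R (s : Set (integralClosure R (FractionRing R))) := by
      rw [hs]; exact Submodule.mem_top
    induction hy using Submodule.span_induction with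
    | mem y hy =>
      exact hc y (Finset.mem_image_of_mem _ hy)
    | zero => exact ⟨0, by simp⟩
    | add y z _ _ h1 h2 =>
      obtain ⟨a, ha⟩ := h1
      obtain ⟨b, hb⟩ := h2
      exact ⟨a + b, by rw [map_add, ha, hb, ← smul_add]; rfl⟩
    | smul r y _ h1 =>
      obtain ⟨a, ha⟩ := h1
      refine ⟨r * a, ?_⟩
      rw [map_mul, ha]
      show _ = (c : R) • (r • (y : FractionRing R))
      rw [smul_comm, Algebra.smul_def r]
  refine ⟨c, c.2, fun z x hx e he ⟨w, hw⟩ => ?_⟩
  let y : FractionRing R := IsLocalization.mk' (FractionRing R) z ⟨x, hx⟩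
  have hy : y * algebraMap R (FractionRing R) x = algebraMap R (FractionRing R) z :=
    IsLocalization.mk'_spec _ z ⟨x, hx⟩
  have hye : y ^ e = algebraMap R (FractionRing R) w := by
    have hu : IsUnit (algebraMap R (FractionRing R) (x ^ e)) :=
      IsLocalization.map_units (FractionRing R) ⟨x ^ e, pow_mem hx e⟩
    apply hu.mul_left_cancel
    rw [← map_mul, ← hw, map_pow, map_pow, ← hy]
    ring
  have hint : IsIntegral R y := by
    apply IsIntegral.of_pow he
    rw [hye]
    exact isIntegral_algebraMap
  obtain ⟨r, hr⟩ := h1 ⟨y, hint⟩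
  refine ⟨r, ?_⟩
  apply IsFractionRing.injective R (FractionRing R)
  rw [map_mul, map_mul, hr, ← hy]
  show _ = _ * ((c : R) • y)
  rw [Algebra.smul_def]
  ring

variable [IsLocalRing R]

theorem eq_zero_of_cond {c : R} (hc : c ∈ nonZeroDivisors R) {x : R} (hx : x ∈ maximalIdeal R)
    {z : R} (h : ∀ q : ℕ, x ^ q ∣ c * z) : z = 0 := by
  have h1 : c * z ∈ (⨅ i : ℕ, Ideal.span {x} ^ i : Ideal R) := by
    rw [Ideal.mem_iInf]
    intro i
    rw [Ideal.span_singleton_pow, Ideal.mem_span_singleton]
    exact h i
  rw [Ideal.iInf_pow_eq_bot_of_isLocalRing] at h1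
  · exact (mem_nonZeroDivisors_iff_left.1 hc) z h1
  · rw [Ne, Ideal.span_singleton_eq_top]
    exact (mem_maximalIdeal x).1 hx

end cond

section count

variable {R : Type u} [CommRing R] [IsLocalRing R] [IsNoetherianRing R]
variable {k : Type*} [Field k] [Algebra k R]

theorem finite_quot [Module.Finite k (ResidueField R)] (h : ringKrullDim R = 1) {x : R}
    (hx : x ∈ nonZeroDivisors R) : Module.Finite k (R ⧸ Ideal.span {x}) := by
  have := krullDimLE_of h
  exact finite_of_isFiniteLength (isFiniteLength_quotient_span_singleton R hx)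

theorem finrank_quot_pow [Module.Finite k (ResidueField R)] (h : ringKrullDim R = 1) {x : R}
    (hx : x ∈ nonZeroDivisors R) (M : ℕ) :
    Module.finrank k (R ⧸ Ideal.span {x ^ M}) ≤ M * Module.finrank k (R ⧸ Ideal.span {x}) := by
  induction M with
  | zero =>
    rw [pow_zero, Ideal.span_singleton_one, zero_mul]
    have : Subsingleton (R ⧸ (⊤ : Ideal R)) := Submodule.Quotient.subsingleton_iff.2 rfl
    rw [Module.finrank_zero_of_subsingleton]
  | succ M ih =>
    have hf0 : Module.Finite k (R ⧸ Ideal.span {x}) := finite_quot h hx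
    have hf1 : Module.Finite k (R ⧸ Ideal.span {x ^ (M + 1)}) := finite_quot h (pow_mem hx _)
    have hf2 : Module.Finite k (R ⧸ Ideal.span {x ^ M}) := finite_quot h (pow_mem hx _)
    have hle : Ideal.span {x ^ (M + 1)} ≤ Ideal.span {x} := by
      rw [Ideal.span_singleton_le_span_singleton]
      exact dvd_pow_self x (by omega)
    let g : (R ⧸ Ideal.span {x ^ (M + 1)}) →ₐ[k] (R ⧸ Ideal.span {x}) :=
      Ideal.Quotient.factorₐ k hle
    have hmul : Ideal.span {x ^ M} ≤ Submodule.comap
        (LinearMap.toSpanSingleton R R x) (Ideal.span {x ^ (M + 1)}) := by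
      intro a ha
      rw [Ideal.mem_span_singleton] at ha
      obtain ⟨b, rfl⟩ := ha
      rw [Submodule.mem_comap, Ideal.mem_span_singleton]
      exact ⟨b, by rw [LinearMap.toSpanSingleton_apply, smul_eq_mul]; ring⟩
    let f : (R ⧸ Ideal.span {x ^ M}) →ₗ[R] (R ⧸ Ideal.span {x ^ (M + 1)}) :=
      Submodule.mapQ _ _ (LinearMap.toSpanSingleton R R x) hmul
    let f' : (R ⧸ Ideal.span {x ^ M}) →ₗ[k] (R ⧸ Ideal.span {x ^ (M + 1)}) :=
      f.restrictScalars k
    have hker : LinearMap.ker g.toLinearMap ≤ LinearMap.range f' := by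
      intro z hz
      obtain ⟨z, rfl⟩ := Ideal.Quotient.mk_surjective z
      rw [LinearMap.mem_ker] at hz
      have h1 : Ideal.Quotient.mk (Ideal.span {x}) z = 0 := hz
      rw [Ideal.Quotient.eq_zero_iff_mem, Ideal.mem_span_singleton] at h1
      obtain ⟨b, rfl⟩ := h1
      refine ⟨Ideal.Quotient.mk _ b, ?_⟩
      show Ideal.Quotient.mk (Ideal.span {x ^ (M + 1)}) (b • x) = _
      rw [smul_eq_mul, mul_comm]
    have h2 := LinearMap.finrank_range_add_finrank_ker g.toLinearMap
    have h3 : Module.finrank k (LinearMap.ker g.toLinearMap) ≤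
        Module.finrank k (R ⧸ Ideal.span {x ^ M}) :=
      (Submodule.finrank_mono hker).trans (LinearMap.finrank_range_le f')
    have h4 : Module.finrank k (LinearMap.range g.toLinearMap) ≤
        Module.finrank k (R ⧸ Ideal.span {x}) := Submodule.finrank_le _
    rw [← h2, add_mul, one_mul]
    omega

/-- a polynomial relation of small degree modulo a large power -/
theorem exists_rel [Module.Finite k (ResidueField R)] (h : ringKrullDim R = 1) {x : R}
    (hx : x ∈ nonZeroDivisors R) (f g : R) (M d : ℕ)
    (hMd : M * Module.finrank k (R ⧸ Ideal.span {x}) < (d + 1) * (d + 1)) :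
    ∃ P : MvPolynomial (Fin 2) k, P ≠ 0 ∧ (∀ m ∈ P.support, m 0 + m 1 ≤ 2 * d) ∧
      x ^ M ∣ MvPolynomial.aeval ![f, g] P := by
  classical
  have hf1 : Module.Finite k (R ⧸ Ideal.span {x ^ M}) := finite_quot h (pow_mem hx _)
  let W := Fin (d + 1) × Fin (d + 1) → k
  let mm : Fin (d + 1) × Fin (d + 1) → (Fin 2 →₀ ℕ) := fun p =>
    Finsupp.single 0 (p.1 : ℕ) + Finsupp.single 1 (p.2 : ℕ)
  have hmm : Function.Injective mm := by
    intro p q hpq
    have h0 := DFunLike.congr_fun hpq 0
    have h1 := DFunLike.congr_fun hpq 1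
    simp [mm] at h0 h1
    exact Prod.ext (Fin.ext h0) (Fin.ext h1)
  let Pol : W →ₗ[k] MvPolynomial (Fin 2) k :=
    { toFun := fun c => ∑ p, MvPolynomial.monomial (mm p) (c p)
      map_add' := fun c c' => by
        show ∑ p, MvPolynomial.monomial (mm p) (c p + c' p) = _
        simp only [map_add, Finset.sum_add_distrib]
      map_smul' := fun a c => by
        show ∑ p, MvPolynomial.monomial (mm p) (a • c p) = _
        simp only [RingHom.id_apply, Finset.smul_sum, MvPolynomial.smul_monomial] }
  have hcoeff : ∀ (c : W) (m : Fin 2 →₀ ℕ),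
      MvPolynomial.coeff m (Pol c) = ∑ p, if mm p = m then c p else 0 := by
    intro c m
    show MvPolynomial.coeff m (∑ p, MvPolynomial.monomial (mm p) (c p)) = _
    rw [MvPolynomial.coeff_sum]
    apply Finset.sum_congr rfl
    intro p _
    rw [MvPolynomial.coeff_monomial]
  let T : W →ₗ[k] (R ⧸ Ideal.span {x ^ M}) :=
    (Ideal.Quotient.mkₐ k (Ideal.span {x ^ M})).toLinearMap ∘ₗ
      (MvPolynomial.aeval ![f, g]).toLinearMap ∘ₗ Pol
  have hrank : Module.finrank k (R ⧸ Ideal.span {x ^ M}) < Module.finrank k W := by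
    rw [Module.finrank_fintype_fun_eq_card, Fintype.card_prod, Fintype.card_fin]
    exact lt_of_le_of_lt (finrank_quot_pow h hx M) hMd
  have hne := LinearMap.ker_ne_bot_of_finrank_lt (f := T) hrank
  obtain ⟨c, hc, hc0⟩ := (Submodule.ne_bot_iff _).1 hne
  refine ⟨Pol c, ?_, ?_, ?_⟩
  · intro h0
    apply hc0
    funext p
    have h1 := hcoeff c (mm p)
    rw [h0, MvPolynomial.coeff_zero, Finset.sum_eq_single p, if_pos rfl] at h1
    · exact h1.symm
    · intro q _ hq
      rw [if_neg]
      exact fun h => hq (hmm h)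
    · intro h
      exact absurd (Finset.mem_univ _) h
  · intro m hm
    rw [MvPolynomial.mem_support_iff, hcoeff] at hm
    obtain ⟨p, _, hp⟩ := Finset.exists_ne_zero_of_sum_ne_zero hm
    have hpm : mm p = m := by
      by_contra h
      rw [if_neg h] at hp
      exact hp rfl
    rw [← hpm]
    have h1 : mm p 0 = p.1 := by simp [mm]
    have h2 : mm p 1 = p.2 := by simp [mm]
    rw [h1, h2]
    have := p.1.2
    have := p.2.2
    omega
  · rw [← Ideal.mem_span_singleton, ← Ideal.Quotient.eq_zero_iff_mem]
    exact hc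

end count

section descent

variable {R : Type u} [CommRing R] {k : Type*} [Field k] [CharZero k] [Algebra k R]

theorem chain_rule (D : Derivation k R R) (f g : R) (P : MvPolynomial (Fin 2) k) :
    D (MvPolynomial.aeval ![f, g] P) =
      MvPolynomial.aeval ![f, g] (MvPolynomial.pderiv 0 P) * D f +
        MvPolynomial.aeval ![f, g] (MvPolynomial.pderiv 1 P) * D g := by
  induction P using MvPolynomial.induction_on with
  | C a =>
    rw [MvPolynomial.pderiv_C, MvPolynomial.pderiv_C]
    simp
  | add P Q hP hQ =>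
    rw [map_add, map_add, hP, hQ]
    simp only [map_add]
    ring
  | mul_X P i hP =>
    rw [map_mul, MvPolynomial.aeval_X, Derivation.leibniz, hP]
    simp only [Derivation.leibniz, map_add, smul_eq_mul, map_mul, MvPolynomial.aeval_X]
    fin_cases i
    · simp [MvPolynomial.pderiv_X_of_ne]
      ring
    · simp [MvPolynomial.pderiv_X_of_ne]
      ring

theorem dvd_step (D : Derivation k R R) {x Q Z : R} {M a : ℕ} (h : x ^ (M + 1) ∣ Q * Z ^ a) :
    x ^ M ∣ D Q * Z ^ (a + 1) := by
  have h1 : D (Q * Z ^ a) * Z = D Q * Z ^ (a + 1) + (a : R) * D Z * (Q * Z ^ a) := by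
    rw [Derivation.leibniz, Derivation.leibniz_pow]
    simp only [smul_eq_mul, nsmul_eq_mul]
    rcases a with _ | a
    · simp
    · rw [Nat.add_sub_cancel]
      ring
  have h2 : x ^ M ∣ D (Q * Z ^ a) := by
    obtain ⟨t, ht⟩ := h
    rw [ht, Derivation.leibniz, Derivation.leibniz_pow]
    simp only [smul_eq_mul, nsmul_eq_mul, Nat.add_sub_cancel]
    refine dvd_add ?_ ?_
    · exact ⟨x * D t, by ring⟩
    · exact ⟨t * ((M + 1 : ℕ) * D x), by ring⟩
  have h3 : x ^ M ∣ (a : R) * D Z * (Q * Z ^ a) :=
    Dvd.dvd.mul_left ((pow_dvd_pow x (Nat.le_succ M)).trans h) _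
  have h4 : D Q * Z ^ (a + 1) = D (Q * Z ^ a) * Z - (a : R) * D Z * (Q * Z ^ a) := by
    rw [h1]; ring
  rw [h4]
  exact dvd_sub (Dvd.dvd.mul_right h2 _) h3

/-- the descent -/
theorem descent (D E : Derivation k R R) (f g x : R) (n : ℕ) :
    ∀ (P : MvPolynomial (Fin 2) k), P ≠ 0 → (∀ m ∈ P.support, m 0 + m 1 ≤ n) → ∀ a M : ℕ,
      x ^ (M + n) ∣ MvPolynomial.aeval ![f, g] P * (D f * E g - D g * E f) ^ a →
      x ^ M ∣ (D f * E g - D g * E f) ^ (a + 2 * n) := by
  set Z := D f * E g - D g * E f with hZ
  induction n with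
  | zero =>
    intro P hP hm a M hdvd
    have hPC : P = MvPolynomial.C (MvPolynomial.coeff 0 P) := by
      ext m
      rw [MvPolynomial.coeff_C]
      split_ifs with h0
      · rw [h0]
      · by_contra hne
        apply h0
        have h1 := hm m (MvPolynomial.mem_support_iff.2 hne)
        ext i
        fin_cases i
        · simp; omega
        · simp; omega
    have hc : MvPolynomial.coeff 0 P ≠ 0 := by
      intro h0
      apply hP
      rw [hPC, h0, map_zero]
    rw [hPC, MvPolynomial.aeval_C, Nat.add_zero] at hdvd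
    have hu : IsUnit (algebraMap k R (MvPolynomial.coeff 0 P)) :=
      (IsUnit.mk0 _ hc).map _
    rw [Nat.mul_zero, Nat.add_zero]
    exact (hu.dvd_mul_left).1 hdvd
  | succ n ih =>
    intro P hP hm a M hdvd
    by_cases hcon : ∀ m ∈ P.support, m = 0
    · have hm' : ∀ m ∈ P.support, m 0 + m 1 ≤ n := by
        intro m hm1
        rw [hcon m hm1]
        simp
      have h1 : x ^ (M + n) ∣ MvPolynomial.aeval ![f, g] P * Z ^ a :=
        (pow_dvd_pow x (by omega)).trans hdvd
      have h2 := ih P hP hm' a M h1
      exact h2.trans (pow_dvd_pow Z (by omega))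
    · push Not at hcon
      obtain ⟨m, hm1, hm0⟩ := hcon
      obtain ⟨i, hi⟩ : ∃ i, m i ≠ 0 := by
        by_contra h
        push Not at h
        exact hm0 (Finsupp.ext h)
      have hne : MvPolynomial.pderiv i P ≠ 0 := by
        intro h0
        have h1 := MvPolynomial.coeff_pderiv (i := i) P (m - Finsupp.single i 1)
        have h2 : m - Finsupp.single i 1 + Finsupp.single i 1 = m := by
          ext j
          by_cases hj : i = j
          · subst hj; simp; omega
          · simp [Finsupp.single_apply, hj]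
        rw [h0, MvPolynomial.coeff_zero, h2] at h1
        have h3 : (((m - Finsupp.single i 1 : Fin 2 →₀ ℕ) i : ℕ) : k) + 1 ≠ 0 := by
          exact Nat.cast_add_one_ne_zero _
        exact (mul_ne_zero (MvPolynomial.mem_support_iff.1 hm1) h3) h1.symm
      have hsup : ∀ m' ∈ (MvPolynomial.pderiv i P).support, m' 0 + m' 1 ≤ n := by
        intro m' hm'
        rw [MvPolynomial.mem_support_iff, MvPolynomial.coeff_pderiv] at hm'
        have h1 := hm _ (MvPolynomial.mem_support_iff.2 (left_ne_zero_of_mul hm'))
        fin_cases i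
        · simp at h1; omega
        · simp at h1; omega
      have hstep : ∀ D' : Derivation k R R,
          x ^ (M + n) ∣ D' (MvPolynomial.aeval ![f, g] P) * Z ^ (a + 1) := fun D' =>
        dvd_step D' hdvd
      have hi2 : x ^ (M + n) ∣
          MvPolynomial.aeval ![f, g] (MvPolynomial.pderiv i P) * Z ^ (a + 2) := by
        have hD := hstep D
        have hE := hstep E
        rw [chain_rule] at hD hE
        have key0 : MvPolynomial.aeval ![f, g] (MvPolynomial.pderiv 0 P) * Z ^ (a + 2) =
            (MvPolynomial.aeval ![f, g] (MvPolynomial.pderiv 0 P) * D f +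
              MvPolynomial.aeval ![f, g] (MvPolynomial.pderiv 1 P) * D g) * Z ^ (a + 1) * E g -
            (MvPolynomial.aeval ![f, g] (MvPolynomial.pderiv 0 P) * E f +
              MvPolynomial.aeval ![f, g] (MvPolynomial.pderiv 1 P) * E g) * Z ^ (a + 1) * D g := by
          rw [hZ]; ring
        have key1 : MvPolynomial.aeval ![f, g] (MvPolynomial.pderiv 1 P) * Z ^ (a + 2) =
            (MvPolynomial.aeval ![f, g] (MvPolynomial.pderiv 0 P) * E f +
              MvPolynomial.aeval ![f, g] (MvPolynomial.pderiv 1 P) * E g) * Z ^ (a + 1) * D f -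
            (MvPolynomial.aeval ![f, g] (MvPolynomial.pderiv 0 P) * D f +
              MvPolynomial.aeval ![f, g] (MvPolynomial.pderiv 1 P) * D g) * Z ^ (a + 1) * E f := by
          rw [hZ]; ring
        fin_cases i
        · exact key0 ▸ dvd_sub (Dvd.dvd.mul_right hD _) (Dvd.dvd.mul_right hE _)
        · exact key1 ▸ dvd_sub (Dvd.dvd.mul_right hE _) (Dvd.dvd.mul_right hD _)
      have h5 := ih _ hne hsup (a + 2) M hi2
      rw [show a + 2 * (n + 1) = a + 2 + 2 * n by ring]
      exact h5

end descent

/-- **Rank one**: over a reduced local ring of dimension one with finite normalisation, whose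
residue field is finite over `k`, any two derivations are proportional. -/
theorem rank_one {R : Type u} [CommRing R] [IsLocalRing R] [IsNoetherianRing R] [IsReduced R]
    {k : Type*} [Field k] [CharZero k] [Algebra k R] [Module.Finite k (ResidueField R)]
    (h : ringKrullDim R = 1)
    (hfin : Module.Finite R (integralClosure R (FractionRing R)))
    (D E : Derivation k R R) (f g : R) : D f * E g = D g * E f := by
  obtain ⟨x, hxm, hx⟩ := exists_regular h
  obtain ⟨c, hc, hcond⟩ := exists_cond hfin
  rw [← sub_eq_zero]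
  apply eq_zero_of_cond hc hxm
  intro q
  set C := Module.finrank k (R ⧸ Ideal.span {x}) with hC
  have hf0 : Module.Finite k (R ⧸ Ideal.span {x}) := finite_quot h hx
  have hnt : Nontrivial (R ⧸ Ideal.span {x}) := by
    apply Ideal.Quotient.nontrivial_iff.2
    rw [Ne, Ideal.span_singleton_eq_top]
    exact (mem_maximalIdeal x).1 hxm
  have hC0 : 0 < C := Module.finrank_pos
  set d := (4 * q + 2) * C with hd
  have hd0 : 0 < d := by positivity
  obtain ⟨P, hP, hm, hdvd⟩ := exists_rel (k := k) h hx f g ((4 * q + 2) * d) d (by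
    rw [← hC]
    calc (4 * q + 2) * d * C = d * ((4 * q + 2) * C) := by ring
      _ = d * d := by rw [← hd]
      _ < (d + 1) * (d + 1) := by nlinarith)
  have h1 := descent D E f g x (2 * d) P hP hm 0 (4 * q * d) (by
    rw [pow_zero, mul_one]
    refine (pow_dvd_pow x ?_).trans hdvd
    apply le_of_eq
    ring)
  apply hcond _ _ (pow_mem hx q) (4 * d) (by omega)
  rw [← pow_mul, show q * (4 * d) = 4 * q * d by ring]
  rw [show 0 + 2 * (2 * d) = 4 * d by ring] at h1
  exact h1

end Run7.h988
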