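import Pool.Agent.Run7.h988.Der

/-!
# A derivation with a unit value forces regularity in dimension one
-/

set_option autoImplicit false
set_option linter.unusedSectionVars false

open IsLocalRing CategoryTheory

universe u

namespace Run7.h988

variable {R : Type u} [CommRing R] {k : Type*} [Field k] [CharZero k] [Algebra k R]

theorem exists_flat (D : Derivation k R R) {z : R} (hz : D z = 1) (f : R) (N : ℕ) :
    ∃ h : R, z ∣ h - f ∧ z ^ N ∣ D h := by
  induction N with
  | zero => exact ⟨f, by simp, by simp⟩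
  | succ N ih =>
    obtain ⟨h, h1, b, h2⟩ := ih
    refine ⟨h - z ^ (N + 1) * (((N + 1 : ℕ) : k)⁻¹ • b), ?_, ?_⟩
    · have h3 : h - z ^ (N + 1) * (((N + 1 : ℕ) : k)⁻¹ • b) - f =
          (h - f) - z * (z ^ N * (((N + 1 : ℕ) : k)⁻¹ • b)) := by ring
      rw [h3]
      exact dvd_sub h1 (dvd_mul_right _ _)
    · have hne : ((N + 1 : ℕ) : k) ≠ 0 := Nat.cast_ne_zero.2 (Nat.succ_ne_zero N)
      have h4 : ((N + 1 : ℕ) : R) * (((N + 1 : ℕ) : k)⁻¹ • b) = b := by
        rw [Algebra.smul_def, ← map_natCast (algebraMap k R) (N + 1), ← mul_assoc, ← map_mul,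
          mul_inv_cancel₀ hne, map_one, one_mul]
      refine ⟨- D (((N + 1 : ℕ) : k)⁻¹ • b), ?_⟩
      rw [map_sub, h2, Derivation.leibniz, Derivation.leibniz_pow, hz]
      simp only [smul_eq_mul, nsmul_eq_mul, Nat.add_sub_cancel, mul_one]
      linear_combination (- z ^ N) * h4

theorem dvd_of_flat (D : Derivation k R R) {z : R} (hz : D z = 1)
    (hreg : ∀ a : R, z * a = 0 → a = 0) {y : R} (hy : z ∣ y) {N : ℕ} (hD : z ^ N ∣ D y) :
    z ^ (N + 1) ∣ y := by
  have h1 : ∀ j, j ≤ N → z ^ (j + 1) ∣ y := by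
    intro j
    induction j with
    | zero => intro _; simpa using hy
    | succ j ih =>
      intro hj
      obtain ⟨a, ha⟩ := ih (by omega)
      have h2 : D y = ((j + 1 : ℕ) : R) * z ^ j * a + z ^ (j + 1) * D a := by
        rw [ha, Derivation.leibniz, Derivation.leibniz_pow, hz]
        simp only [smul_eq_mul, nsmul_eq_mul, Nat.add_sub_cancel, mul_one]
        ring
      obtain ⟨b, hb⟩ := (pow_dvd_pow z hj).trans hD
      have h3 : z ^ j * (((j + 1 : ℕ) : R) * a - z * (b - D a)) = 0 := by
        rw [h2] at hb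
        linear_combination hb
      have h4 : ((j + 1 : ℕ) : R) * a - z * (b - D a) = 0 := by
        have h5 : z ∈ nonZeroDivisors R := mem_nonZeroDivisors_iff_left.2 hreg
        exact (mem_nonZeroDivisors_iff_left.1 (pow_mem h5 j)) _ h3
      have hu : IsUnit ((j + 1 : ℕ) : R) := by
        rw [← map_natCast (algebraMap k R) (j + 1)]
        exact (IsUnit.mk0 _ (Nat.cast_ne_zero.2 (Nat.succ_ne_zero j))).map _
      have h6 : z ∣ a := by
        apply (hu.dvd_mul_left).1
        exact ⟨b - D a, sub_eq_zero.1 h4⟩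
      obtain ⟨c, rfl⟩ := h6
      exact ⟨c, by rw [ha]; ring⟩
  exact h1 N le_rfl

variable [IsLocalRing R] [IsNoetherianRing R] [IsReduced R]

theorem regular_of_one (hdim : ringKrullDim R = 1)
    (hfin : Module.Finite R (integralClosure R (FractionRing R)))
    (D : Derivation k R R) {z : R} (hz : D z = 1) :
    (∀ a : R, z * a = 0 → a = 0) ∧ ∀ f ∈ maximalIdeal R, z ∣ f := by
  have hreg : ∀ a : R, z * a = 0 → a = 0 := by
    intro a ha
    have h1 : D (z * a) = 0 := by rw [ha, map_zero]
    rw [Derivation.leibniz, hz] at h1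
    simp only [smul_eq_mul, mul_one] at h1
    have h2 : a ^ 2 = 0 := by linear_combination a * h1 - D a * ha
    exact pow_eq_zero_iff (two_ne_zero) |>.1 h2
  refine ⟨hreg, fun f hf => ?_⟩
  have hznz : z ∈ nonZeroDivisors R := mem_nonZeroDivisors_iff_left.2 hreg
  obtain ⟨n, hn⟩ := pow_le_span hdim hznz
  obtain ⟨c₀, hc₀, hcond⟩ := exists_cond hfin
  by_cases hzm : z ∈ maximalIdeal R
  · obtain ⟨a, ha⟩ := pow_le_span hdim hc₀
    obtain ⟨c₁, hc₁⟩ := Ideal.mem_span_singleton.1 (ha (Ideal.pow_mem_pow hzm a))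
    -- flat approximation
    set c := n + 1 with hc
    obtain ⟨h, h1, h2⟩ := exists_flat D hz f (c * (a + 1))
    have hfc : z ∣ f ^ c := by
      rw [← Ideal.mem_span_singleton]
      apply hn
      exact Ideal.pow_le_pow_right (by omega) (Ideal.pow_mem_pow hf c)
    have hhc : z ∣ h ^ c := by
      have h3 : z ∣ h ^ c - f ^ c := h1.trans (sub_dvd_pow_sub_pow h f c)
      have := dvd_add h3 hfc
      simpa using this
    have hDh : z ^ (c * (a + 1)) ∣ D (h ^ c) := by
      rw [Derivation.leibniz_pow]
      simp only [smul_eq_mul, nsmul_eq_mul]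
      exact Dvd.dvd.mul_left (Dvd.dvd.mul_left h2 _) _
    have h4 : z ^ (c * (a + 1) + 1) ∣ h ^ c := dvd_of_flat D hz hreg hhc hDh
    have h5 : (z ^ (a + 1)) ^ c ∣ h ^ c := by
      rw [← pow_mul]
      exact (pow_dvd_pow z (by rw [mul_comm]; omega)).trans h4
    have h6 : z ^ (a + 1) ∣ c₀ * h := hcond h (z ^ (a + 1)) (pow_mem hznz _) c (by omega) h5
    have h7 : z ^ (a + 1) ∣ z ^ a * h := by
      rw [hc₁, mul_right_comm]
      exact Dvd.dvd.mul_right h6 _
    obtain ⟨w, hw⟩ := h7
    have h8 : z ^ a * (h - z * w) = 0 := by linear_combination hw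
    have h9 : h - z * w = 0 := (mem_nonZeroDivisors_iff_left.1 (pow_mem hznz a)) _ h8
    have h10 : z ∣ h := ⟨w, sub_eq_zero.1 h9⟩
    have h11 := dvd_sub h10 h1
    simpa using h11
  · have hu : IsUnit z := by
      by_contra hu
      exact hzm ((mem_maximalIdeal z).2 hu)
    exact hu.dvd

/-- a derivation with a unit value on `R` has a unit value on the maximal ideal -/
theorem exists_mem_unit [Module.Finite k (ResidueField R)] (D : Derivation k R R) {f : R}
    (hf : IsUnit (D f)) : ∃ z ∈ maximalIdeal R, IsUnit (D z) := by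
  let p : Polynomial k := minpoly k (residue R f)
  have hint : IsIntegral k (residue R f) := Algebra.IsIntegral.isIntegral _
  have hsep : p.Separable := (minpoly.irreducible hint).separable
  refine ⟨Polynomial.aeval f p, ?_, ?_⟩
  · rw [← residue_eq_zero_iff]
    have h1 : residue R (Polynomial.aeval f p) = Polynomial.aeval (residue R f) p := by
      have := Polynomial.aeval_algebraMap_apply (ResidueField R) f p
      exact this.symm
    rw [h1]
    exact minpoly.aeval k _
  · rw [Derivation.map_aeval, smul_eq_mul]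
    refine IsUnit.mul ?_ hf
    rw [← residue_ne_zero_iff_isUnit]
    have h1 : residue R (Polynomial.aeval f (Polynomial.derivative p)) =
        Polynomial.aeval (residue R f) (Polynomial.derivative p) := by
      have := Polynomial.aeval_algebraMap_apply (ResidueField R) f (Polynomial.derivative p)
      exact this.symm
    rw [h1]
    exact hsep.aeval_derivative_ne_zero (minpoly.aeval k _)

/-- **Regularity**: if some derivation takes a unit value, `R` is regular, and so of injective
dimension at most one. -/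
theorem injDim_of_unit [Module.Finite k (ResidueField R)] (hdim : ringKrullDim R = 1)
    (hfin : Module.Finite R (integralClosure R (FractionRing R)))
    (D : Derivation k R R) {f : R} (hf : IsUnit (D f)) :
    HasInjectiveDimensionLE (ModuleCat.of R R) 1 := by
  obtain ⟨z, hzm, hz⟩ := exists_mem_unit D hf
  obtain ⟨v, hv⟩ := hz
  have h1 : ((↑v⁻¹ : R) • D) z = 1 := by
    show (↑v⁻¹ : R) * D z = 1
    rw [← hv]
    exact v.inv_mul
  obtain ⟨hreg, hdvd⟩ := regular_of_one hdim hfin ((↑v⁻¹ : R) • D) h1
  apply injDim_of_max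
  intro i hi
  have e : R ≃ₗ[R] maximalIdeal R := by
    refine LinearEquiv.ofBijective ((mx R z).codRestrict (maximalIdeal R) (fun a => ?_)) ⟨?_, ?_⟩
    · rw [mx_apply]
      exact Ideal.mul_mem_left _ _ hzm
    · intro a b hab
      exact mx_inj hreg (congrArg Subtype.val hab)
    · rintro ⟨y, hy⟩
      obtain ⟨c, rfl⟩ := hdvd y hy
      exact ⟨c, Subtype.ext (by simp [mul_comm])⟩
  exact (ev_congr_left e i).1 (ev_proj i hi)

end Run7.h988
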