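import Pool.Agent.Run7.h988.Ext

/-!
# Totally reflexive modules over local rings of depth one
-/

set_option autoImplicit false

open CategoryTheory Abelian

universe u

namespace Run7.h988

/-- Totally reflexive modules: finitely generated, `M → M**` is an isomorphism and
`Ext^i(M, R) = Ext^i(M*, R) = 0` for all `i ≥ 1`. -/
structure TotRefl (R : Type u) [CommRing R] (M : Type u) [AddCommGroup M] [Module R M] :
    Prop where
  fin : Module.Finite R M
  refl : Function.Bijective (Module.Dual.eval R M)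
  ext : ∀ i : ℕ, 1 ≤ i →
    Subsingleton (Abelian.Ext (ModuleCat.of R M) (ModuleCat.of R R) i)
  extDual : ∀ i : ℕ, 1 ≤ i →
    Subsingleton (Abelian.Ext (ModuleCat.of R (Module.Dual R M)) (ModuleCat.of R R) i)

/-- `M` has a resolution `0 → G_n → ... → G_0 → M → 0` by totally reflexive modules, that is,
`Gdim_R M ≤ n`: either `M` is totally reflexive or there is an exact sequence
`0 → K → G → M → 0` with `G` totally reflexive and `Gdim_R K ≤ n - 1`. -/
def GdimLE (R : Type u) [CommRing R] : ℕ → ∀ (M : Type u) [AddCommGroup M] [Module R M], Prop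
  | 0, M, _, _ => TotRefl R M
  | n + 1, M, _, _ => TotRefl R M ∨ ∃ (K G : Type u) (_ : AddCommGroup K) (_ : Module R K)
      (_ : AddCommGroup G) (_ : Module R G) (f : K →ₗ[R] G) (g : G →ₗ[R] M),
      Function.Injective f ∧ Function.Exact f g ∧ Function.Surjective g ∧ TotRefl R G ∧
        GdimLE R n K

/-- `x` is a regular element of the maximal ideal and `s` generates a copy of the residue field in
`R / x R` (so `R` has depth one) -/
structure Par (R : Type u) [CommRing R] [IsLocalRing R] (x s : R) : Prop where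
  mem : x ∈ IsLocalRing.maximalIdeal R
  reg : ∀ a : R, x * a = 0 → a = 0
  ndvd : ¬ x ∣ s
  soc : ∀ y ∈ IsLocalRing.maximalIdeal R, x ∣ y * s

variable {R : Type u} [CommRing R]

/-- the map `1 ↦ s` from the residue field to `R / x R` -/
theorem exists_simple_map [IsLocalRing R] {x s : R} (hp : Par R x s) {S : Type u} [AddCommGroup S]
    [Module R S] [IsSimpleModule R S] :
    ∃ (φ : S →ₗ[R] (R ⧸ Ideal.span {x})), φ ≠ 0 := by
  obtain ⟨I, hI, ⟨e⟩⟩ := isSimpleModule_iff_quot_maximal.1 (inferInstance : IsSimpleModule R S)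
  have hI' : I = IsLocalRing.maximalIdeal R := IsLocalRing.eq_maximalIdeal hI
  subst hI'
  let t : R →ₗ[R] (R ⧸ Ideal.span {x}) :=
    LinearMap.toSpanSingleton R _ (Ideal.Quotient.mk (Ideal.span {x}) s)
  have ht : IsLocalRing.maximalIdeal R ≤ LinearMap.ker t := by
    intro y hy
    rw [LinearMap.mem_ker]
    have h1 : t y = Ideal.Quotient.mk (Ideal.span {x}) (y * s) := by
      show y • Ideal.Quotient.mk (Ideal.span {x}) s = _
      rw [← smul_eq_mul]
      rfl
    rw [h1, Ideal.Quotient.eq_zero_iff_mem, Ideal.mem_span_singleton]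
    exact hp.soc y hy
  refine ⟨(Submodule.liftQ _ t ht) ∘ₗ (e : S →ₗ[R] _), fun h => ?_⟩
  have h2 := LinearMap.congr_fun h (e.symm (Submodule.Quotient.mk 1))
  simp only [LinearMap.comp_apply, LinearEquiv.coe_coe, LinearEquiv.apply_symm_apply,
    LinearMap.zero_apply] at h2
  rw [Submodule.liftQ_apply] at h2
  have h3 : t 1 = Ideal.Quotient.mk (Ideal.span {x}) s := by
    show (1 : R) • Ideal.Quotient.mk (Ideal.span {x}) s = _
    rw [one_smul]
  rw [h3, Ideal.Quotient.eq_zero_iff_mem, Ideal.mem_span_singleton] at h2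
  exact hp.ndvd h2

/-- multiplication by `x` -/
def mx (R : Type u) [CommRing R] (x : R) : R →ₗ[R] R := LinearMap.toSpanSingleton R R x

@[simp] theorem mx_apply (x a : R) : mx R x a = a * x := rfl

theorem mx_exact (x : R) : Function.Exact (mx R x) (Submodule.mkQ (Ideal.span {x})) := by
  intro y
  rw [Submodule.mkQ_apply, Submodule.Quotient.mk_eq_zero, Ideal.mem_span_singleton]
  constructor
  · rintro ⟨c, rfl⟩
    exact ⟨c, by simp [mul_comm]⟩
  · rintro ⟨c, rfl⟩
    exact ⟨c, by simp [mul_comm]⟩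

theorem mx_inj {x : R} (hreg : ∀ a : R, x * a = 0 → a = 0) : Function.Injective (mx R x) := by
  rw [← LinearMap.ker_eq_bot, LinearMap.ker_eq_bot']
  intro a ha
  exact hreg a (by rw [mul_comm]; exact ha)

/-- The key lemma. -/
theorem key [IsLocalRing R] {x s : R} (hp : Par R x s) {Y : Type u} [AddCommGroup Y] [Module R Y]
    [Module.Finite R Y] (hY : EV R Y R 1) (I : Submodule R Y)
    (ha : ∀ θ : Y →ₗ[R] R, (∀ y ∈ I, θ y = 0) → θ = 0)
    (hb : ∀ l : I →ₗ[R] R, ∃ L : Y →ₗ[R] R, ∀ y : I, L y = l y) : I = ⊤ := by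
  by_contra hI
  obtain ⟨W, hW, hIW⟩ := (eq_top_or_exists_le_coatom I).resolve_left hI
  have : IsSimpleModule R (Y ⧸ W) := isSimpleModule_iff_isCoatom.2 hW
  obtain ⟨φ, hφ⟩ := exists_simple_map hp (S := Y ⧸ W)
  obtain ⟨Φ, hΦ⟩ := lift_of_ev (mx R x) (Submodule.mkQ (Ideal.span {x})) (mx_exact x)
    (mx_inj hp.reg) (Submodule.mkQ_surjective _) hY (φ ∘ₗ W.mkQ)
  have h1 : ∀ y ∈ I, Φ y ∈ LinearMap.range (mx R x) := by
    intro y hy
    rw [LinearMap.mem_range]
    apply (mx_exact x (Φ y)).1
    have h2 := LinearMap.congr_fun hΦ y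
    rw [LinearMap.comp_apply] at h2
    rw [h2, LinearMap.comp_apply]
    have h3 : W.mkQ y = 0 := by
      rw [Submodule.mkQ_apply, Submodule.Quotient.mk_eq_zero]
      exact hIW hy
    rw [h3, map_zero]
  let e := LinearEquiv.ofInjective (mx R x) (mx_inj hp.reg)
  let l : I →ₗ[R] R := (e.symm : _ →ₗ[R] R) ∘ₗ
    ((Φ ∘ₗ I.subtype).codRestrict (LinearMap.range (mx R x)) (fun y => h1 y y.2))
  have hl : ∀ y : I, l y * x = Φ y := by
    intro y
    have h4 : ((e (l y) : LinearMap.range (mx R x)) : R) = Φ y := by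
      show ((e (e.symm _) : LinearMap.range (mx R x)) : R) = Φ y
      rw [LinearEquiv.apply_symm_apply]
      rfl
    exact h4
  obtain ⟨L, hL⟩ := hb l
  have h5 : Φ - x • L = 0 := by
    apply ha
    intro y hy
    have h6 := hl ⟨y, hy⟩
    have h7 := hL ⟨y, hy⟩
    simp only [LinearMap.sub_apply, LinearMap.smul_apply, smul_eq_mul]
    rw [show L y = l ⟨y, hy⟩ from h7, ← h6]
    ring
  apply hφ
  apply LinearMap.ext
  intro z
  obtain ⟨y, rfl⟩ := W.mkQ_surjective z
  have h8 := LinearMap.congr_fun hΦ y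
  rw [LinearMap.comp_apply, LinearMap.comp_apply] at h8
  rw [← h8, sub_eq_zero.1 h5, LinearMap.zero_apply, Submodule.mkQ_apply,
    Submodule.Quotient.mk_eq_zero, Ideal.mem_span_singleton]
  exact ⟨L y, rfl⟩

variable {M G K : Type u} [AddCommGroup M] [Module R M] [AddCommGroup G] [Module R G]
  [AddCommGroup K] [Module R K]

/-- Over a ring of depth one a torsionless module with a totally reflexive resolution of length
one is totally reflexive. -/
theorem totRefl_of_seq [IsLocalRing R] [IsNoetherianRing R] {x s : R} (hp : Par R x s)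
    (f : K →ₗ[R] G) (g : G →ₗ[R] M) (hf : Function.Injective f) (hfg : Function.Exact f g)
    (hg : Function.Surjective g) (hK : TotRefl R K) (hG : TotRefl R G)
    (hM : Function.Injective (Module.Dual.eval R M)) : TotRefl R M := by
  have := hK.fin
  have := hG.fin
  have htop : LinearMap.range f.dualMap = ⊤ := by
    refine key hp (hK.extDual 1 le_rfl) _ ?_ ?_
    · intro θ hθ
      obtain ⟨a, rfl⟩ := hK.refl.2 θ
      have h1 : f a = 0 := by
        apply hG.refl.1
        rw [map_zero]
        apply LinearMap.ext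
        intro ψ
        exact hθ (f.dualMap ψ) ⟨ψ, rfl⟩
      have h2 : a = 0 := hf (by rw [h1, map_zero])
      rw [h2, map_zero]
    · intro l
      obtain ⟨b, hb⟩ := hG.refl.2 (l ∘ₗ f.dualMap.rangeRestrict)
      have hb' : ∀ ψ : Module.Dual R G, l ⟨f.dualMap ψ, ⟨ψ, rfl⟩⟩ = ψ b := fun ψ =>
        (LinearMap.congr_fun hb ψ).symm
      have h1 : g b = 0 := by
        apply hM
        rw [map_zero]
        apply LinearMap.ext
        intro χ
        have h2 := hb' (χ ∘ₗ g)
        have h3 : f.dualMap (χ ∘ₗ g) = 0 := by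
          apply LinearMap.ext
          intro z
          show χ (g (f z)) = 0
          rw [(hfg (f z)).2 ⟨z, rfl⟩, map_zero]
        have h4 : (⟨f.dualMap (χ ∘ₗ g), ⟨χ ∘ₗ g, rfl⟩⟩ : LinearMap.range f.dualMap) = 0 :=
          Subtype.ext h3
        rw [h4, map_zero] at h2
        exact h2.symm
      obtain ⟨a, rfl⟩ := (hfg b).1 h1
      refine ⟨Module.Dual.eval R K a, ?_⟩
      rintro ⟨_, ψ, rfl⟩
      rw [hb' ψ]
      rfl
  have hsurj : Function.Surjective f.dualMap := LinearMap.range_eq_top.1 htop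
  have hgd : Function.Injective g.dualMap := LinearMap.dualMap_injective_of_surjective hg
  have hex : Function.Exact g.dualMap f.dualMap := by
    intro ψ
    constructor
    · intro h
      have h1 : LinearMap.ker g ≤ LinearMap.ker ψ := by
        intro z hz
        obtain ⟨a, rfl⟩ := (hfg z).1 hz
        exact LinearMap.congr_fun h a
      obtain ⟨χ, hχ⟩ : ∃ χ : M →ₗ[R] R, ∀ z, χ (g z) = ψ z := by
        let e := g.quotKerEquivOfSurjective hg
        refine ⟨((LinearMap.ker g).liftQ ψ h1) ∘ₗ (e.symm : M →ₗ[R] _), fun z => ?_⟩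
        have h2 : e.symm (g z) = Submodule.Quotient.mk z := by
          rw [LinearEquiv.symm_apply_eq]
          rfl
        rw [LinearMap.comp_apply, LinearEquiv.coe_coe, h2]
        rfl
      exact ⟨χ, LinearMap.ext hχ⟩
    · rintro ⟨χ, rfl⟩
      apply LinearMap.ext
      intro a
      show χ (g (f a)) = 0
      rw [(hfg (f a)).2 ⟨a, rfl⟩, map_zero]
  refine ⟨Module.Finite.of_surjective g hg, ⟨hM, ?_⟩, ?_, ?_⟩
  · intro Θ
    obtain ⟨Ψ, hΨ⟩ := extend_of_ev g.dualMap f.dualMap hex hgd hsurj (hK.extDual 1 le_rfl) Θ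
    obtain ⟨b, rfl⟩ := hG.refl.2 Ψ
    refine ⟨g b, ?_⟩
    rw [← hΨ]
    rfl
  · intro i hi
    obtain ⟨i, rfl⟩ : ∃ j, i = j + 1 := ⟨i - 1, by omega⟩
    rcases i with _ | i
    · refine ev_one_of_extend f g hfg hf hg (hG.ext 1 le_rfl) ?_
      intro φ
      obtain ⟨ψ, hψ⟩ := hsurj φ
      exact ⟨ψ, hψ⟩
    · exact ev_third f g hfg hf hg (i + 1) (hK.ext _ (by omega)) (hG.ext _ (by omega))
  · intro i hi
    exact ev_first g.dualMap f.dualMap hex hgd hsurj i (hG.extDual i hi)
      (hK.extDual (i + 1) (by omega))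

/-- submodules of torsionless modules are torsionless -/
theorem torsionless_of_inj (f : K →ₗ[R] G) (hf : Function.Injective f)
    (hG : Function.Injective (Module.Dual.eval R G)) :
    Function.Injective (Module.Dual.eval R K) := by
  intro a b hab
  apply hf
  apply hG
  apply LinearMap.ext
  intro ψ
  exact LinearMap.congr_fun hab (ψ ∘ₗ f)

/-- Over a ring of depth one a torsionless module of finite G-dimension is totally reflexive. -/
theorem totRefl_of_gdim [IsLocalRing R] [IsNoetherianRing R] {x s : R} (hp : Par R x s) :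
    ∀ (n : ℕ) (M : Type u) [AddCommGroup M] [Module R M], GdimLE R n M →
      Function.Injective (Module.Dual.eval R M) → TotRefl R M := by
  intro n
  induction n with
  | zero => exact fun M _ _ h _ => h
  | succ n ih =>
    intro M _ _ h hM
    rcases h with h | ⟨K, G, _, _, _, _, f, g, hf, hfg, hg, hG, hK⟩
    · exact h
    · exact totRefl_of_seq hp f g hf hfg hg (ih K hK (torsionless_of_inj f hf hG.refl.1)) hG hM

/-- duals are torsionless -/
theorem dual_torsionless : Function.Injective (Module.Dual.eval R (Module.Dual R M)) := by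
  intro φ ψ h
  apply LinearMap.ext
  intro m
  exact LinearMap.congr_fun h (Module.Dual.eval R M m)

/-- invariance under isomorphisms -/
theorem TotRefl.congr (e : M ≃ₗ[R] G) (h : TotRefl R M) : TotRefl R G := by
  have := h.fin
  refine ⟨Module.Finite.equiv e, ?_, fun i hi => (ev_congr_left e i).1 (h.ext i hi),
    fun i hi => (ev_congr_left e.dualMap.symm i).1 (h.extDual i hi)⟩
  constructor
  · intro a b hab
    apply e.symm.injective
    apply h.refl.1
    apply LinearMap.ext
    intro ψ
    exact LinearMap.congr_fun hab (ψ ∘ₗ (e.symm : G →ₗ[R] M))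
  · intro Θ
    obtain ⟨a, ha⟩ := h.refl.2 (Θ ∘ₗ (e.symm.dualMap : Module.Dual R M →ₗ[R] Module.Dual R G))
    refine ⟨e a, ?_⟩
    apply LinearMap.ext
    intro ψ
    have h1 := LinearMap.congr_fun ha (ψ ∘ₗ (e : M →ₗ[R] G))
    have h2 : e.symm.dualMap (ψ ∘ₗ (e : M →ₗ[R] G)) = ψ := by
      apply LinearMap.ext
      intro z
      show ψ (e (e.symm z)) = ψ z
      rw [LinearEquiv.apply_symm_apply]
    have h3 : Θ (e.symm.dualMap (ψ ∘ₗ (e : M →ₗ[R] G))) = Θ ψ := by rw [h2]
    exact h1.trans h3

/-- the dual of a totally reflexive module is totally reflexive -/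
theorem TotRefl.dual [IsNoetherianRing R] (h : TotRefl R M) : TotRefl R (Module.Dual R M) := by
  have := h.fin
  let e : M ≃ₗ[R] Module.Dual R (Module.Dual R M) :=
    LinearEquiv.ofBijective (Module.Dual.eval R M) h.refl
  refine ⟨inferInstance, ⟨dual_torsionless, ?_⟩, h.extDual, fun i hi =>
    (ev_congr_left e i).1 (h.ext i hi)⟩
  intro Θ
  refine ⟨Θ ∘ₗ Module.Dual.eval R M, ?_⟩
  apply LinearMap.ext
  intro z
  obtain ⟨m, rfl⟩ := h.refl.2 z
  rfl

end Run7.h988
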