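import Pool.Agent.Run7.h988.Len

/-!
# Rings of depth one and type one are Gorenstein
-/

set_option autoImplicit false
set_option linter.unusedSectionVars false

open IsLocalRing CategoryTheory

universe u

namespace Run7.h988

section len

variable {R : Type u} [CommRing R] {A B C : Type u} [AddCommGroup A] [Module R A]
  [AddCommGroup B] [Module R B] [AddCommGroup C] [Module R C]

theorem len_le_of_exact (f : A →ₗ[R] B) (g : B →ₗ[R] C) (h : Function.Exact f g) :
    Module.length R B ≤ Module.length R A + Module.length R (LinearMap.range g) := by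
  have h1 : Module.length R B = Module.length R (LinearMap.ker g) +
      Module.length R (LinearMap.range g) :=
    Module.length_eq_add_of_exact (LinearMap.ker g).subtype g.rangeRestrict
      Subtype.val_injective g.surjective_rangeRestrict (by
        intro y
        constructor
        · intro hy
          refine ⟨⟨y, ?_⟩, rfl⟩
          exact congrArg Subtype.val hy
        · rintro ⟨z, rfl⟩
          exact Subtype.ext z.2)
  rw [h1]
  apply add_le_add _ le_rfl
  have h2 : LinearMap.ker g = LinearMap.range f := LinearMap.exact_iff.1 h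
  rw [h2]
  exact Module.length_le_of_surjective _ f.surjective_rangeRestrict

theorem len_range_le (g : B →ₗ[R] C) :
    Module.length R (LinearMap.range g) ≤ Module.length R C :=
  Module.length_le_of_injective (LinearMap.range g).subtype Subtype.val_injective

theorem dual_exact (f : A →ₗ[R] B) (g : B →ₗ[R] C) (h : Function.Exact f g)
    (hg : Function.Surjective g) (Q : Type u) [AddCommGroup Q] [Module R Q] :
    Function.Exact (LinearMap.lcomp R Q g) (LinearMap.lcomp R Q f) := by
  intro ψ
  constructor
  · intro hψ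
    have h1 : LinearMap.ker g ≤ LinearMap.ker ψ := by
      intro z hz
      obtain ⟨a, rfl⟩ := (h z).1 hz
      exact LinearMap.congr_fun hψ a
    let e := g.quotKerEquivOfSurjective hg
    refine ⟨((LinearMap.ker g).liftQ ψ h1) ∘ₗ (e.symm : C →ₗ[R] _), ?_⟩
    apply LinearMap.ext
    intro z
    have h2 : e.symm (g z) = Submodule.Quotient.mk z := by
      rw [LinearEquiv.symm_apply_eq]
      rfl
    show ((LinearMap.ker g).liftQ ψ h1) (e.symm (g z)) = ψ z
    rw [h2]
    rfl
  · rintro ⟨χ, rfl⟩
    apply LinearMap.ext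
    intro a
    show χ (g (f a)) = 0
    rw [(h (f a)).2 ⟨a, rfl⟩, map_zero]

end len

variable {R : Type u} [CommRing R] [IsLocalRing R]

/-- if the socle of `R / x R` is simple, then `ℓ(Hom(N, R / x R)) ≤ ℓ(N)` -/
theorem len_hom_le {x : R} (hS : Module.length R (soc x) ≤ 1) {N : Type u} [AddCommGroup N]
    [Module R N] (hN : IsFiniteLength R N) :
    Module.length R (N →ₗ[R] (R ⧸ Ideal.span {x})) ≤ Module.length R N := by
  induction hN with
  | of_subsingleton =>
    rename_i M _ _ _
    have : Subsingleton (M →ₗ[R] (R ⧸ Ideal.span {x})) := by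
      refine ⟨fun a b => ?_⟩
      apply LinearMap.ext
      intro m
      rw [Subsingleton.elim m 0, map_zero, map_zero]
    rw [Module.length_eq_zero]
    simp
  | of_simple_quotient _ ih =>
    rename_i M _ _ S hSimp _
    obtain ⟨I, hI, ⟨e⟩⟩ := isSimpleModule_iff_quot_maximal.1 hSimp
    have hI' : I = maximalIdeal R := eq_maximalIdeal hI
    subst hI'
    have h1 : Module.length R ((M ⧸ S) →ₗ[R] (R ⧸ Ideal.span {x})) ≤ 1 := by
      refine le_trans ?_ hS
      -- evaluation at the generator
      let t : ((M ⧸ S) →ₗ[R] (R ⧸ Ideal.span {x})) →ₗ[R] soc x :=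
        LinearMap.codRestrict (soc x)
          { toFun := fun φ => φ (e.symm (Submodule.Quotient.mk 1))
            map_add' := fun _ _ => rfl
            map_smul' := fun _ _ => rfl }
          (by
            intro φ y hy
            show y • φ (e.symm (Submodule.Quotient.mk 1)) = 0
            rw [← map_smul, ← map_smul, ← Submodule.Quotient.mk_smul, smul_eq_mul, mul_one,
              (Submodule.Quotient.mk_eq_zero _).2 hy, map_zero, map_zero])
      apply Module.length_le_of_injective t
      intro φ ψ h
      have h2 : φ (e.symm (Submodule.Quotient.mk 1)) = ψ (e.symm (Submodule.Quotient.mk 1)) :=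
        congrArg Subtype.val h
      apply LinearMap.ext
      intro m
      obtain ⟨r, rfl⟩ := e.symm.surjective m
      obtain ⟨r, rfl⟩ := Submodule.Quotient.mk_surjective _ r
      have h3 : (Submodule.Quotient.mk r : R ⧸ maximalIdeal R) = r • Submodule.Quotient.mk 1 := by
        rw [← Submodule.Quotient.mk_smul, smul_eq_mul, mul_one]
      rw [h3, map_smul, map_smul, map_smul, h2]
    have h2 := len_le_of_exact _ _ (dual_exact S.subtype S.mkQ (LinearMap.exact_subtype_mkQ _)
      (Submodule.mkQ_surjective _) (R ⧸ Ideal.span {x}))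
    have h3 : Module.length R M = Module.length R S + Module.length R (M ⧸ S) :=
      Module.length_eq_add_of_exact S.subtype S.mkQ Subtype.val_injective
        (Submodule.mkQ_surjective _) (LinearMap.exact_subtype_mkQ _)
    have h4 : Module.length R (M ⧸ S) = 1 := Module.length_eq_one R _
    rw [h3, h4, add_comm]
    exact h2.trans (add_le_add h1 ((len_range_le _).trans ih))

section ext

variable [IsNoetherianRing R]

/-- lifting functionals to the free cover -/
theorem extend_of_type_one {x : R} (hfl : IsFiniteLength R (R ⧸ Ideal.span {x}))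
    (hS : Module.length R (soc x) ≤ 1) {n : ℕ} {N : Type u} [AddCommGroup N] [Module R N]
    (f : ((Fin n → R) ⧸ xM x (Fin n → R)) →ₗ[R] N) (hf : Function.Surjective f)
    (φ : LinearMap.ker f →ₗ[R] (R ⧸ Ideal.span {x})) :
    ∃ ψ : ((Fin n → R) ⧸ xM x (Fin n → R)) →ₗ[R] (R ⧸ Ideal.span {x}),
      ψ ∘ₗ (LinearMap.ker f).subtype = φ := by
  -- the length of the free cover
  have hFle : Module.length R ((Fin n → R) ⧸ xM x (Fin n → R)) ≤
      Module.length R (Fin n → (R ⧸ Ideal.span {x})) := by
    let g : ((Fin n → R) ⧸ xM x (Fin n → R)) →ₗ[R] (Fin n → (R ⧸ Ideal.span {x})) :=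
      Submodule.liftQ _ (LinearMap.pi fun i => (Submodule.mkQ (Ideal.span {x})) ∘ₗ
        LinearMap.proj i) (by
        rintro _ ⟨h, rfl⟩
        rw [LinearMap.mem_ker]
        funext i
        show Submodule.mkQ (Ideal.span {x}) (x * h i) = 0
        rw [Submodule.mkQ_apply, Submodule.Quotient.mk_eq_zero, Ideal.mem_span_singleton]
        exact dvd_mul_right _ _)
    have hg : Function.Injective g := by
      rw [← LinearMap.ker_eq_bot, LinearMap.ker_eq_bot']
      intro z hz
      obtain ⟨v, rfl⟩ := Submodule.Quotient.mk_surjective _ z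
      have h2 : ∀ i, ∃ c, v i = x * c := by
        intro i
        have h3 : Submodule.mkQ (Ideal.span {x}) (v i) = 0 := congrFun hz i
        rw [Submodule.mkQ_apply, Submodule.Quotient.mk_eq_zero, Ideal.mem_span_singleton] at h3
        exact h3
      choose w hw using h2
      rw [Submodule.Quotient.mk_eq_zero, mem_xM]
      exact ⟨w, funext fun i => (hw i).symm⟩
    exact Module.length_le_of_injective g hg
  have hpi : Module.length R (Fin n → (R ⧸ Ideal.span {x})) ≠ ⊤ := by
    rw [Module.length_pi]
    obtain ⟨L, hL⟩ := ENat.ne_top_iff_exists.1 (Module.length_ne_top_iff.2 hfl)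
    rw [← hL, ENat.card_eq_coe_fintype_card, Fintype.card_fin]
    exact_mod_cast ENat.coe_ne_top (n * L)
  have hFne : Module.length R ((Fin n → R) ⧸ xM x (Fin n → R)) ≠ ⊤ :=
    ne_top_of_le_ne_top hpi hFle
  have hFfl : IsFiniteLength R ((Fin n → R) ⧸ xM x (Fin n → R)) :=
    Module.length_ne_top_iff.1 hFne
  have hNfl : IsFiniteLength R N := IsFiniteLength.of_surjective hFfl hf
  have hKfl : IsFiniteLength R (LinearMap.ker f) :=
    IsFiniteLength.of_injective (f := (LinearMap.ker f).subtype) hFfl Subtype.val_injective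
  -- the length of `Hom(F, R / x)`
  have hH : Module.length R (Fin n → (R ⧸ Ideal.span {x})) ≤
      Module.length R (((Fin n → R) ⧸ xM x (Fin n → R)) →ₗ[R] (R ⧸ Ideal.span {x})) := by
    let h : (Fin n → (R ⧸ Ideal.span {x})) →ₗ[R]
        (((Fin n → R) ⧸ xM x (Fin n → R)) →ₗ[R] (R ⧸ Ideal.span {x})) :=
      { toFun := fun t => Submodule.liftQ _ (Fintype.linearCombination R t) (by
          rintro _ ⟨v, rfl⟩
          rw [LinearMap.mem_ker]
          show ∑ i, (x • v) i • t i = 0
          apply Finset.sum_eq_zero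
          intro i _
          obtain ⟨c, hc⟩ := Submodule.Quotient.mk_surjective _ (t i)
          rw [← hc, ← Submodule.Quotient.mk_smul, Submodule.Quotient.mk_eq_zero,
            Ideal.mem_span_singleton]
          show x ∣ (x * v i) * c
          exact ⟨v i * c, by ring⟩)
        map_add' := fun t t' => by
          apply LinearMap.ext
          intro z
          obtain ⟨v, rfl⟩ := Submodule.Quotient.mk_surjective _ z
          show ∑ i, v i • (t i + t' i) = ∑ i, v i • t i + ∑ i, v i • t' i
          rw [← Finset.sum_add_distrib]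
          apply Finset.sum_congr rfl
          intro i _
          rw [smul_add]
        map_smul' := fun c t => by
          apply LinearMap.ext
          intro z
          obtain ⟨v, rfl⟩ := Submodule.Quotient.mk_surjective _ z
          show ∑ i, v i • (c • t i) = c • ∑ i, v i • t i
          rw [Finset.smul_sum]
          apply Finset.sum_congr rfl
          intro i _
          rw [smul_comm] }
    apply Module.length_le_of_injective h
    intro t t' htt
    funext j
    have h1 := LinearMap.congr_fun htt (Submodule.Quotient.mk (Pi.single j 1))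
    have h2 : ∀ t : Fin n → (R ⧸ Ideal.span {x}),
        h t (Submodule.Quotient.mk (Pi.single j 1)) = t j := by
      intro t
      show ∑ i, (Pi.single j 1 : Fin n → R) i • t i = t j
      rw [Finset.sum_eq_single j]
      · rw [Pi.single_eq_same, one_smul]
      · intro i _ hij
        rw [Pi.single_eq_of_ne hij, zero_smul]
      · intro h
        exact absurd (Finset.mem_univ _) h
    rw [h2, h2] at h1
    exact h1
  have hex : Function.Exact (LinearMap.ker f).subtype f := by
    intro y
    simp
  have hKN : Module.length R ((Fin n → R) ⧸ xM x (Fin n → R)) =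
      Module.length R (LinearMap.ker f) + Module.length R N :=
    Module.length_eq_add_of_exact _ f Subtype.val_injective hf hex
  let ρ := LinearMap.lcomp R (R ⧸ Ideal.span {x}) (LinearMap.ker f).subtype
  have h5 := len_le_of_exact _ _ (dual_exact _ f hex hf (R ⧸ Ideal.span {x}))
  have h6 := len_hom_le hS hNfl
  have h7 := len_hom_le hS hKfl
  have hKne : Module.length R (LinearMap.ker f) ≠ ⊤ := Module.length_ne_top_iff.2 hKfl
  have hNne : Module.length R N ≠ ⊤ := Module.length_ne_top_iff.2 hNfl
  have h8 : Module.length R (LinearMap.ker f) ≤ Module.length R (LinearMap.range ρ) := by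
    have h9 : Module.length R N + Module.length R (LinearMap.ker f) ≤
        Module.length R N + Module.length R (LinearMap.range ρ) := by
      calc Module.length R N + Module.length R (LinearMap.ker f)
          = Module.length R ((Fin n → R) ⧸ xM x (Fin n → R)) := by rw [hKN, add_comm]
        _ ≤ _ := hFle
        _ ≤ _ := hH
        _ ≤ _ := h5
        _ ≤ _ := add_le_add h6 le_rfl
    exact (ENat.add_le_add_iff_left hNne).1 h9
  have hHomfl : IsFiniteLength R (LinearMap.ker f →ₗ[R] (R ⧸ Ideal.span {x})) :=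
    Module.length_ne_top_iff.1 (ne_top_of_le_ne_top hKne h7)
  obtain ⟨hNo, hAr⟩ := isFiniteLength_iff_isNoetherian_isArtinian.1 hHomfl
  have h10 : LinearMap.range ρ = ⊤ := by
    by_contra hne
    have h11 := Submodule.length_lt hne
    exact absurd (h7.trans h8) (not_le.2 h11)
  obtain ⟨ψ, hψ⟩ := LinearMap.range_eq_top.1 h10 φ
  exact ⟨ψ, hψ⟩

theorem x_ext_zero {x : R} {K : Type u} [AddCommGroup K] [Module R K] (hK : ∀ z : K, x • z = 0)
    (η : Abelian.Ext (ModuleCat.of R K) (ModuleCat.of R R) 1) :
    η.comp (Abelian.Ext.mk₀ (ModuleCat.ofHom (mx R x))) (add_zero 1) = 0 := by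
  have h1 : ModuleCat.ofHom (mx R x) = x • 𝟙 (ModuleCat.of R R) := by
    ext
    simp
  have h2 : x • 𝟙 (ModuleCat.of R K) = 0 := by
    ext z
    exact hK z
  have h3 : η.comp (Abelian.Ext.mk₀ (x • 𝟙 (ModuleCat.of R R))) (add_zero 1) = x • η := by
    simp [Abelian.Ext.mk₀_smul]
  have h4 : (Abelian.Ext.mk₀ (x • 𝟙 (ModuleCat.of R K))).comp η (zero_add 1) = x • η := by
    simp [Abelian.Ext.mk₀_smul]
  rw [h1, h3, ← h4, h2]
  simp

theorem ev_two_of_extend {x s : R} (hp : Par R x s) {K F N : Type u} [AddCommGroup K]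
    [Module R K] [AddCommGroup F] [Module R F] [AddCommGroup N] [Module R N]
    (ι : K →ₗ[R] F) (f : F →ₗ[R] N) (hex : Function.Exact ι f) (hι : Function.Injective ι)
    (hf : Function.Surjective f) (hK : ∀ z : K, x • z = 0) (hF : EV R F R 2)
    (hext : ∀ φ : K →ₗ[R] (R ⧸ Ideal.span {x}), ∃ ψ : F →ₗ[R] (R ⧸ Ideal.span {x}),
      ψ ∘ₗ ι = φ) : EV R N R 2 := by
  have hSE := sc_shortExact ι f hex hι hf
  have hSx := sc_shortExact (mx R x) (Submodule.mkQ (Ideal.span {x})) (mx_exact x)
    (mx_inj hp.reg) (Submodule.mkQ_surjective _)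
  refine subsingleton_of_forall_eq 0 fun ξ => ?_
  obtain ⟨η, hη⟩ := Abelian.Ext.contravariant_sequence_exact₃ hSE (ModuleCat.of R R) ξ
    (@Subsingleton.elim _ hF _ _) (rfl : 1 + 1 = 2)
  obtain ⟨φ, hφ⟩ : ∃ φ : Abelian.Ext (sc ι f hex).X₁
      (sc (mx R x) (Submodule.mkQ (Ideal.span {x})) (mx_exact x)).X₃ 0,
      φ.comp hSx.extClass (zero_add 1) = η :=
    Abelian.Ext.covariant_sequence_exact₁ (sc ι f hex).X₁ hSx η (x_ext_zero hK η) (zero_add 1)
  obtain ⟨φ, rfl⟩ := (Abelian.Ext.mk₀_bijective _ _).2 φ
  obtain ⟨ψ, hψ⟩ := hext φ.hom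
  let ψ' : (sc ι f hex).X₂ ⟶
      (sc (mx R x) (Submodule.mkQ (Ideal.span {x})) (mx_exact x)).X₃ := ModuleCat.ofHom ψ
  have h5 : (sc ι f hex).f ≫ ψ' = φ := by
    ext z
    exact LinearMap.congr_fun hψ z
  rw [← hη, ← hφ, ← h5, ← Abelian.Ext.mk₀_comp_mk₀_assoc]
  exact hSE.extClass_comp_assoc
    ((Abelian.Ext.mk₀ ψ').comp hSx.extClass (zero_add 1))

theorem ev_of_type_one {x s : R} (hp : Par R x s) (hfl : IsFiniteLength R (R ⧸ Ideal.span {x}))
    (hS : Module.length R (soc x) ≤ 1) (i : ℕ) :
    ∀ (N : Type u) [AddCommGroup N] [Module R N] [Module.Finite R N], (∀ z : N, x • z = 0) →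
      EV R N R (i + 2) := by
  have hF2 : ∀ (n i : ℕ), EV R ((Fin n → R) ⧸ xM x (Fin n → R)) R (i + 2) := by
    intro n i
    refine ev_third (x • (LinearMap.id : (Fin n → R) →ₗ[R] (Fin n → R)))
      (xM x (Fin n → R)).mkQ ?_ ?_ (Submodule.mkQ_surjective _) (i + 1)
      (ev_proj _ (by omega)) (ev_proj _ (by omega))
    · intro g
      rw [Submodule.mkQ_apply, Submodule.Quotient.mk_eq_zero]
      rfl
    · rw [← LinearMap.ker_eq_bot, LinearMap.ker_eq_bot']
      intro v hv
      funext i
      exact hp.reg _ (congrFun hv i)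
  have hcov : ∀ (N : Type u) [AddCommGroup N] [Module R N] [Module.Finite R N],
      (∀ z : N, x • z = 0) → ∃ (n : ℕ) (f' : ((Fin n → R) ⧸ xM x (Fin n → R)) →ₗ[R] N),
        Function.Surjective f' := by
    intro N _ _ _ hN
    obtain ⟨n, f, hf⟩ := Module.Finite.exists_fin' R N
    refine ⟨n, Submodule.liftQ _ f (by
      rintro _ ⟨v, rfl⟩
      rw [LinearMap.mem_ker]
      show f (x • v) = 0
      rw [map_smul, hN]), ?_⟩
    intro z
    obtain ⟨v, rfl⟩ := hf z
    exact ⟨Submodule.Quotient.mk v, rfl⟩
  have hker : ∀ (n : ℕ) (N : Type u) [AddCommGroup N] [Module R N]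
      (f' : ((Fin n → R) ⧸ xM x (Fin n → R)) →ₗ[R] N) (z : LinearMap.ker f'), x • z = 0 := by
    rintro n N _ _ f' ⟨z, hz⟩
    apply Subtype.ext
    obtain ⟨v, rfl⟩ := Submodule.Quotient.mk_surjective _ z
    show x • (Submodule.Quotient.mk v : (Fin n → R) ⧸ xM x (Fin n → R)) = 0
    rw [← Submodule.Quotient.mk_smul, Submodule.Quotient.mk_eq_zero]
    exact ⟨v, rfl⟩
  induction i with
  | zero =>
    intro N _ _ _ hN
    obtain ⟨n, f', hf'⟩ := hcov N hN
    exact ev_two_of_extend hp (LinearMap.ker f').subtype f' (by intro y; simp)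
      Subtype.val_injective hf' (hker n N f') (hF2 n 0)
      (fun φ => extend_of_type_one hfl hS f' hf' φ)
  | succ i ih =>
    intro N _ _ _ hN
    obtain ⟨n, f', hf'⟩ := hcov N hN
    exact ev_third (LinearMap.ker f').subtype f' (by intro y; simp) Subtype.val_injective hf'
      (i + 2) (ih _ (hker n N f')) (hF2 n (i + 1))

theorem injDim_of_type_one {x s : R} (hp : Par R x s)
    (hfl : IsFiniteLength R (R ⧸ Ideal.span {x})) (hS : Module.length R (soc x) ≤ 1) (i : ℕ)
    (hi : 2 ≤ i) : EV R (ResidueField R) R i := by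
  obtain ⟨i, rfl⟩ : ∃ j, i = j + 2 := ⟨i - 2, by omega⟩
  apply ev_of_type_one hp hfl hS
  intro z
  obtain ⟨r, rfl⟩ := residue_surjective z
  rw [Algebra.smul_def]
  show residue R x * residue R r = 0
  rw [(residue_eq_zero_iff x).2 hp.mem, zero_mul]

end ext

end Run7.h988
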